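import Pool.Agent.Zk61.KR.Lq

/-!
# MP_850839: the tube inequality for families covered by few hyperplanes, and a reduction

Let `δ`-tubes in `ℝ^n` with `δ`-separated orientations be given.  A hyperplane contains (in its
`K δ`-neighbourhood) at most `C δ^(-(n-2))` of them, so at least `c δ^(n-2) N` hyperplanes are
needed to cover `N` tubes.  If `D δ^(n-2) N` hyperplanes suffice, the conjectured inequality holds
for `q > 1 + 2 (n-2) / (n-1)²`, with the constant `C D ^ τ`; in `ℝ³` this is the full range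
`q > 3/2`, in `ℝ⁴` it is `q > 13/9` (Wolff's range for all families: `q > 5/3`, `q > 3/2`).
If the parts in the hyperplanes are again covered by few subspaces, and so on down to subspaces of
dimension `j`, the inequality holds for `q > 1 + 2 (1 - 1/j) / (n-1)`: for `j = n` (no condition)
this is Wolff's theorem, for `j = 2` it is the full range `q > n / (n-1)` of the conjecture.
The subspaces are arbitrary: there is no condition on their directions or positions.

Consequence (second part of the theorem): at every scale `δ`, the inequality for all families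
follows from the inequality for the families which are spread, i.e. have fewer than
`δ^(-(n-2)) / M` tubes in the `K δ`-neighbourhood of each hyperplane (`j = n - 1`), with `M` as
large as one likes; the constant `A` becomes `A + C M ^ τ`.
-/

set_option autoImplicit false

open MeasureTheory Set Metric

namespace Pool.Agent.Results.MP_850839_an.FewHyperplanes

/-- The `δ`-tube with centre `a` and direction `e` (a unit vector): the closed cylinder of length
`1` and radius `δ` around the segment with centre `a` and direction `e`. -/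
def tube {n : ℕ} (δ : ℝ) (a e : EuclideanSpace ℝ (Fin n)) : Set (EuclideanSpace ℝ (Fin n)) :=
  {y | |inner ℝ (y - a) e| ≤ 1 / 2 ∧ ‖(y - a) - (inner ℝ (y - a) e) • e‖ ≤ δ}

/-- The directions `e i`, `i ∈ s`, are unit vectors and `δ`-separated. -/
def Separated {n : ℕ} {ι : Type} (δ : ℝ) (e : ι → EuclideanSpace ℝ (Fin n)) (s : Finset ι) :
    Prop :=
  (∀ i ∈ s, ‖e i‖ = 1) ∧ ∀ i ∈ s, ∀ i' ∈ s, i ≠ i' → δ ≤ ‖e i - e i'‖

/-- The inequality of the problem with the constant `A`, for the family of the `δ`-tubes with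
centres `a i` and directions `e i`, `i ∈ s`. -/
def TubeIneq {n : ℕ} {ι : Type} (q A δ : ℝ) (a e : ι → EuclideanSpace ℝ (Fin n))
    (s : Finset ι) : Prop :=
  eLpNorm (fun x => ∑ i ∈ s, (tube δ (a i) (e i)).indicator (fun _ => (1 : ℝ)) x)
      (ENNReal.ofReal q) volume ≤
    ENNReal.ofReal (A * δ ^ (((n : ℝ) - 1) / q) *
      (s.card : ℝ) ^ (1 - 1 / (q * ((n : ℝ) - 1))))

/-- The tubes `T i`, `i ∈ s`, are `k` times layered in the affine subspace `V`:
* `k = 0`: `V` has dimension `j`, and the tubes are contained in its `K δ`-neighbourhood;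
* `k + 1`: `V` has dimension `j + k + 1`, and the family is divided (by the values `l` of a function
  `c`) into at most `D δ^(j + k - 1) #s` parts, every one of which is `k` times layered in a
  hyperplane `W l` of `V`. -/
inductive Layered {n : ℕ} {ι : Type} (K D δ : ℝ) (T : ι → Set (EuclideanSpace ℝ (Fin n)))
    (j : ℕ) : ℕ → AffineSubspace ℝ (EuclideanSpace ℝ (Fin n)) → Finset ι → Prop
  | base (V : AffineSubspace ℝ (EuclideanSpace ℝ (Fin n))) (s : Finset ι)
      (hV : Module.finrank ℝ V.direction = j)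
      (hT : ∀ i ∈ s, T i ⊆ cthickening (K * δ) (V : Set (EuclideanSpace ℝ (Fin n)))) :
      Layered K D δ T j 0 V s
  | split (k : ℕ) (V : AffineSubspace ℝ (EuclideanSpace ℝ (Fin n))) (s : Finset ι)
      (hV : Module.finrank ℝ V.direction = j + k + 1) (c : ι → ℕ)
      (W : ℕ → AffineSubspace ℝ (EuclideanSpace ℝ (Fin n)))
      (hc : ((s.image c).card : ℝ) ≤ D * δ ^ (j + k - 1) * s.card)
      (hW : ∀ l ∈ s.image c, W l ≤ V)
      (hL : ∀ l ∈ s.image c, Layered K D δ T j k (W l) (s.filter fun i => c i = l)) :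
      Layered K D δ T j (k + 1) V s

/-- The tubes `T i`, `i ∈ s`, are spread: no hyperplane `W` has `δ^(-(n-2)) / M` or more of them
which are `n - 1 - j` times layered in `W`.  For `j = n - 1`: there are fewer than
`δ^(-(n-2)) / M` of them in the `K δ`-neighbourhood of each hyperplane. -/
def Spread {n : ℕ} {ι : Type} (K M δ : ℝ) (T : ι → Set (EuclideanSpace ℝ (Fin n)))
    (j : ℕ) (s : Finset ι) : Prop :=
  ∀ (W : AffineSubspace ℝ (EuclideanSpace ℝ (Fin n))) (u : Finset ι), u ⊆ s →
    Layered K M δ T j (n - 1 - j) W u → M * δ ^ (n - 2) * (u.card : ℝ) < 1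

theorem Layered.lay {n : ℕ} {ι : Type} {K D δ : ℝ} {T : ι → Set (EuclideanSpace ℝ (Fin n))}
    {b k : ℕ} {V : AffineSubspace ℝ (EuclideanSpace ℝ (Fin n))} {s : Finset ι}
    (h : Layered K D δ T (b + 2) k V s) : Pool.Agent.Zk61.KR.Lay K D δ T b k V s := by
  induction h with
  | base V s hV hT => exact ⟨hV, hT⟩
  | split k V s hV c W hc hW hL ih =>
    have e1 : b + 2 + k - 1 = b + k + 1 := by omega
    rw [e1] at hc
    exact ⟨hV.trans (by omega), c, hc, fun l hl => ⟨W l, hW l hl, ih l hl⟩⟩

open Classical in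
/-- Greedy removal of the concentrated parts. -/
theorem greedy {n : ℕ} {ι : Type} {K M δ : ℝ}
    (T : ι → Set (EuclideanSpace ℝ (Fin n))) (j : ℕ) (hj : 2 ≤ j) (hjn : j < n) (s : Finset ι) :
    ∃ u ⊆ s, Layered K M δ T j (n - j) ⊤ u ∧ Spread K M δ T j (s \ u) := by
  set P : Finset ι → Prop := fun u =>
    ∃ (c : ι → ℕ) (W : ℕ → AffineSubspace ℝ (EuclideanSpace ℝ (Fin n))),
      ((u.image c).card : ℝ) ≤ M * δ ^ (n - 2) * u.card ∧
      ∀ l ∈ u.image c, Layered K M δ T j (n - 1 - j) (W l) (u.filter fun i => c i = l) with hP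
  have hP0 : P ∅ := ⟨fun _ => 0, fun _ => ⊤, by simp, by simp⟩
  obtain ⟨u, hu, hmax⟩ := Finset.exists_max_image (s.powerset.filter P) Finset.card
    ⟨∅, by simp [hP0]⟩
  simp only [Finset.mem_filter, Finset.mem_powerset] at hu hmax
  obtain ⟨hus, c, W, hc, hL⟩ := hu
  refine ⟨u, hus, ?_, ?_⟩
  · obtain ⟨k, hk⟩ : ∃ k, n - j = k + 1 := ⟨n - j - 1, by omega⟩
    have hk' : n - 1 - j = k := by omega
    rw [hk]
    rw [hk'] at hL
    refine Layered.split k ⊤ u ?_ c W ?_ (fun l _ => le_top) hL
    · rw [AffineSubspace.direction_top, finrank_top, finrank_euclideanSpace_fin]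
      omega
    · have e1 : j + k - 1 = n - 2 := by omega
      rw [e1]
      exact hc
  · intro V u' hu' hLu'
    by_contra hcon
    rw [not_lt] at hcon
    have hu's : u' ⊆ s := hu'.trans Finset.sdiff_subset
    have hdisj : Disjoint u u' := by
      rw [Finset.disjoint_right]
      intro i hi
      exact (Finset.mem_sdiff.1 (hu' hi)).2
    have hne : u'.Nonempty := by
      rw [Finset.nonempty_iff_ne_empty]
      rintro rfl
      simp at hcon
      linarith
    obtain ⟨l0, hl0⟩ : ∃ l0, l0 ∉ u.image c := Infinite.exists_notMem_finset _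
    have hnot : ∀ i ∈ u, i ∉ u' := fun i hi hi' => Finset.disjoint_left.1 hdisj hi hi'
    have himg : (u ∪ u').image (fun i => if i ∈ u' then l0 else c i) =
        insert l0 (u.image c) := by
      ext l
      simp only [Finset.mem_image, Finset.mem_union, Finset.mem_insert]
      constructor
      · rintro ⟨i, hi, rfl⟩
        by_cases h : i ∈ u'
        · simp [h]
        · rcases hi with hi | hi
          · right; exact ⟨i, hi, by simp [h]⟩
          · exact absurd hi h
      · rintro (rfl | ⟨i, hi, rfl⟩)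
        · obtain ⟨i, hi⟩ := hne
          exact ⟨i, Or.inr hi, by simp [hi]⟩
        · exact ⟨i, Or.inl hi, by simp [hnot i hi]⟩
    have hPu : P (u ∪ u') := by
      refine ⟨fun i => if i ∈ u' then l0 else c i, Function.update W l0 V, ?_, ?_⟩
      · rw [himg, Finset.card_insert_of_notMem hl0, Finset.card_union_of_disjoint hdisj]
        push_cast
        rw [mul_add]
        linarith
      · intro l hl
        rw [himg, Finset.mem_insert] at hl
        by_cases hll : l = l0
        · subst hll
          have e1 : (u ∪ u').filter (fun i => (if i ∈ u' then l else c i) = l) = u' := by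
            ext i
            simp only [Finset.mem_filter, Finset.mem_union]
            constructor
            · rintro ⟨hi, h⟩
              by_contra hi'
              rw [if_neg hi'] at h
              rcases hi with hi | hi
              · exact hl0 (h ▸ Finset.mem_image_of_mem c hi)
              · exact hi' hi
            · intro hi
              exact ⟨Or.inr hi, by simp [hi]⟩
          rw [Function.update_self]
          convert hLu' using 1
        · rcases hl with hl | hl
          · exact absurd hl hll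
          have e1 : (u ∪ u').filter (fun i => (if i ∈ u' then l0 else c i) = l) =
              u.filter (fun i => c i = l) := by
            ext i
            simp only [Finset.mem_filter, Finset.mem_union]
            constructor
            · rintro ⟨hi, h⟩
              by_cases hi' : i ∈ u'
              · rw [if_pos hi'] at h
                exact absurd h.symm hll
              · rw [if_neg hi'] at h
                exact ⟨hi.resolve_right hi', h⟩
            · rintro ⟨hi, h⟩
              exact ⟨Or.inl hi, by rw [if_neg (hnot i hi)]; exact h⟩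
          rw [Function.update_of_ne hll]
          convert hL l hl using 1
    have h1 := hmax (u ∪ u') ⟨Finset.union_subset hus hu's, hPu⟩
    rw [Finset.card_union_of_disjoint hdisj] at h1
    have h2 : 0 < u'.card := hne.card_pos
    omega

theorem measurable_tube {n : ℕ} (δ : ℝ) (a e : EuclideanSpace ℝ (Fin n)) :
    MeasurableSet (tube δ a e) :=
  Pool.Agent.Zk61.KP.measurableSet_tube δ a e

/-- The first part, in the notation of this file. -/
theorem few (n j : ℕ) (hn : 3 ≤ n) (hj : 2 ≤ j) (hjn : j ≤ n) (q τ K : ℝ)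
    (hq : 1 + 2 * (1 - 1 / (j : ℝ)) / ((n : ℝ) - 1) < q)
    (hτ : 2 * (1 - 1 / (j : ℝ)) * ((n : ℝ) - j) / (((n : ℝ) - 1) * q) < τ) (hK : 1 ≤ K) :
    ∃ C : ℝ, 0 < C ∧ ∀ δ : ℝ, 0 < δ → δ < 1 → ∀ D : ℝ, 1 ≤ D → ∀ (ι : Type) (s : Finset ι)
      (a e : ι → EuclideanSpace ℝ (Fin n)), Separated δ e s →
      Layered K D δ (fun i => tube δ (a i) (e i)) j (n - j) ⊤ s →
      TubeIneq q (C * D ^ τ) δ a e s := by
  obtain ⟨b, rfl⟩ : ∃ b, j = b + 2 := ⟨j - 2, by omega⟩
  obtain ⟨t, rfl⟩ : ∃ t, n = 1 + t := ⟨n - 1, by omega⟩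
  set r : ℕ := 1 + t - (b + 2) with hr
  have hbr : b + r + 1 = t := by omega
  have ht0 : (0 : ℝ) < t := by exact_mod_cast (by omega : 0 < t)
  have e1 : ((1 + t : ℕ) : ℝ) - 1 = t := by push_cast; ring
  have e2 : 2 * (1 - 1 / ((b + 2 : ℕ) : ℝ)) = 1 + (b : ℝ) / (b + 2) := by
    push_cast
    field_simp
    ring
  have e3 : ((1 + t : ℕ) : ℝ) - ((b + 2 : ℕ) : ℝ) = r := by
    have : t = b + r + 1 := hbr.symm
    rw [this]; push_cast; ring
  rw [e1, e2] at hq hτ
  rw [e3] at hτ
  have hq0 : 0 < q := lt_trans (by positivity) hq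
  obtain ⟨C, hC, h⟩ := Pool.Agent.Zk61.KR.main_q (τ := τ) hbr hq (by
    rw [div_lt_iff₀ (by positivity)] at hτ
    rw [div_lt_iff₀ ht0]
    linarith) hK
  refine ⟨C ^ (1 / q), by positivity, ?_⟩
  intro δ hδ hδ1 D hD ι s a e hsep hLay
  have key := h δ hδ hδ1.le D hD ι s a e hsep.1 hsep.2 hLay.lay
  have hD0 : 0 < D := by linarith
  unfold TubeIneq
  rw [e1, eLpNorm_eq_lintegral_rpow_enorm_toReal (by
    rw [ne_eq, ENNReal.ofReal_eq_zero, not_le]; exact hq0) ENNReal.ofReal_ne_top,
    ENNReal.toReal_ofReal hq0.le]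
  have e3 : ∀ x, ‖∑ i ∈ s, (tube δ (a i) (e i)).indicator (fun _ => (1 : ℝ)) x‖ₑ ^ q =
      ENNReal.ofReal ((Pool.Agent.Zk61.KP.cnt
        (fun i => Pool.Agent.Zk61.KP.tube δ (a i) (e i)) s x : ℝ) ^ q) := by
    intro x
    have h1 : ∑ i ∈ s, (tube δ (a i) (e i)).indicator (fun _ => (1 : ℝ)) x =
        (Pool.Agent.Zk61.KP.cnt
          (fun i => Pool.Agent.Zk61.KP.tube δ (a i) (e i)) s x : ℝ) := by
      classical
      unfold Pool.Agent.Zk61.KP.cnt
      rw [Finset.card_filter]
      push_cast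
      apply Finset.sum_congr rfl
      intro i _
      rw [Set.indicator_apply]
      rfl
    rw [h1, Real.enorm_of_nonneg (Nat.cast_nonneg _),
      ENNReal.ofReal_rpow_of_nonneg (Nat.cast_nonneg _) hq0.le]
  simp only [e3]
  refine (ENNReal.rpow_le_rpow key (by positivity)).trans (le_of_eq ?_)
  rw [ENNReal.ofReal_rpow_of_nonneg (by positivity) (by positivity)]
  congr 1
  rw [Real.mul_rpow (by positivity) (by positivity), Real.mul_rpow (by positivity) (by positivity),
    Real.mul_rpow (by positivity) (by positivity), ← Real.rpow_mul (by positivity),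
    ← Real.rpow_natCast δ t, ← Real.rpow_mul hδ.le, ← Real.rpow_mul (by positivity)]
  have e4 : τ * q * (1 / q) = τ := by field_simp
  rw [e4]
  congr 2
  · congr 1
    field_simp
  · field_simp

/-- **The tube inequality for families layered by few hyperplanes over dimension `j`, and the
reduction of the inequality for all families to the spread ones.**
First part: `j = n`: all families; `j = n - 1`: the tubes are covered by `D δ^(n-2) N` hyperplanes.
Second part, `j = n - 1`: fewer than `δ^(-(n-2)) / M` tubes near each hyperplane. -/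
theorem result (n j : ℕ) (hn : 3 ≤ n) (hj : 2 ≤ j) (hjn : j ≤ n) (q τ K : ℝ)
    (hq : 1 + 2 * (1 - 1 / (j : ℝ)) / ((n : ℝ) - 1) < q)
    (hτ : 2 * (1 - 1 / (j : ℝ)) * ((n : ℝ) - j) / (((n : ℝ) - 1) * q) < τ) (hK : 1 ≤ K) :
    ∃ C : ℝ, 0 < C ∧ ∀ δ : ℝ, 0 < δ → δ < 1 →
      (∀ D : ℝ, 1 ≤ D → ∀ (ι : Type) (s : Finset ι) (a e : ι → EuclideanSpace ℝ (Fin n)),
        Separated δ e s → Layered K D δ (fun i => tube δ (a i) (e i)) j (n - j) ⊤ s →
        TubeIneq q (C * D ^ τ) δ a e s) ∧
      (j < n → ∀ M : ℝ, 1 ≤ M → ∀ A : ℝ, 0 ≤ A →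
        (∀ (ι : Type) (s : Finset ι) (a e : ι → EuclideanSpace ℝ (Fin n)),
          Separated δ e s → Spread K M δ (fun i => tube δ (a i) (e i)) j s →
          TubeIneq q A δ a e s) →
        ∀ (ι : Type) (s : Finset ι) (a e : ι → EuclideanSpace ℝ (Fin n)),
          Separated δ e s → TubeIneq q (A + C * M ^ τ) δ a e s) := by
  obtain ⟨C, hC, h⟩ := few n j hn hj hjn q τ K hq hτ hK
  refine ⟨C, hC, fun δ hδ hδ1 => ⟨h δ hδ hδ1, ?_⟩⟩
  intro hjn' M hM A hA hyp ι s a e hsep
  classical
  have hM0 : 0 < M := by linarith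
  obtain ⟨u, hus, hu, hsu⟩ := greedy (fun i => tube δ (a i) (e i)) j hj hjn' s
    (K := K)
  have hsep' : ∀ v ⊆ s, Separated δ e v := fun v hv =>
    ⟨fun i hi => hsep.1 i (hv hi), fun i hi i' hi' => hsep.2 i (hv hi) i' (hv hi')⟩
  have h1 := h δ hδ hδ1 M hM ι u a e (hsep' u hus) hu
  have h2 := hyp ι (s \ u) a e (hsep' _ Finset.sdiff_subset) hsu
  have hn1 : (0 : ℝ) < (n : ℝ) - 1 := by
    have : (3 : ℝ) ≤ n := by exact_mod_cast hn
    linarith
  have hj1 : (1 : ℝ) / j ≤ 1 := by
    rw [div_le_one (by exact_mod_cast (by omega : 0 < j))]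
    exact_mod_cast (by omega : 1 ≤ j)
  have hq1 : 1 < q := lt_of_le_of_lt (by
    have : 0 ≤ 2 * (1 - 1 / (j : ℝ)) / ((n : ℝ) - 1) := by
      apply div_nonneg _ hn1.le
      linarith
    linarith) hq
  have hq0 : 0 < q := by linarith
  have hβ : 0 ≤ 1 - 1 / (q * ((n : ℝ) - 1)) := by
    rw [sub_nonneg, div_le_one (by positivity)]
    have : (3 : ℝ) ≤ n := by exact_mod_cast hn
    nlinarith
  unfold TubeIneq at h1 h2 ⊢
  have hmeas : ∀ v : Finset ι, AEStronglyMeasurable
      (fun x => ∑ i ∈ v, (tube δ (a i) (e i)).indicator (fun _ => (1 : ℝ)) x)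
      (volume : Measure (EuclideanSpace ℝ (Fin n))) := by
    intro v
    refine (Finset.measurable_sum _ fun i _ => ?_).aestronglyMeasurable
    exact measurable_const.indicator (measurable_tube δ (a i) (e i))
  have hsum : (fun x => ∑ i ∈ s, (tube δ (a i) (e i)).indicator (fun _ => (1 : ℝ)) x) =
      (fun x => ∑ i ∈ s \ u, (tube δ (a i) (e i)).indicator (fun _ => (1 : ℝ)) x) +
      (fun x => ∑ i ∈ u, (tube δ (a i) (e i)).indicator (fun _ => (1 : ℝ)) x) := by
    ext x
    rw [Pi.add_apply, Finset.sum_sdiff hus]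
  rw [hsum]
  refine (eLpNorm_add_le (hmeas _) (hmeas _) (by
    rw [← ENNReal.ofReal_one]; exact ENNReal.ofReal_le_ofReal hq1.le)).trans ?_
  refine (add_le_add h2 h1).trans ?_
  rw [← ENNReal.ofReal_add (by positivity) (by positivity)]
  apply ENNReal.ofReal_le_ofReal
  have c1 : ((s \ u).card : ℝ) ^ (1 - 1 / (q * ((n : ℝ) - 1))) ≤
      (s.card : ℝ) ^ (1 - 1 / (q * ((n : ℝ) - 1))) :=
    Real.rpow_le_rpow (by positivity)
      (by exact_mod_cast Finset.card_le_card Finset.sdiff_subset) hβ
  have c2 : (u.card : ℝ) ^ (1 - 1 / (q * ((n : ℝ) - 1))) ≤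
      (s.card : ℝ) ^ (1 - 1 / (q * ((n : ℝ) - 1))) :=
    Real.rpow_le_rpow (by positivity) (by exact_mod_cast Finset.card_le_card hus) hβ
  calc A * δ ^ (((n : ℝ) - 1) / q) * ((s \ u).card : ℝ) ^ (1 - 1 / (q * ((n : ℝ) - 1))) +
      C * M ^ τ * δ ^ (((n : ℝ) - 1) / q) * (u.card : ℝ) ^ (1 - 1 / (q * ((n : ℝ) - 1))) ≤
      A * δ ^ (((n : ℝ) - 1) / q) * (s.card : ℝ) ^ (1 - 1 / (q * ((n : ℝ) - 1))) +
      C * M ^ τ * δ ^ (((n : ℝ) - 1) / q) * (s.card : ℝ) ^ (1 - 1 / (q * ((n : ℝ) - 1))) := by
        gcongr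
    _ = _ := by ring

end Pool.Agent.Results.MP_850839_an.FewHyperplanes
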