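import Pool.Agent.Zk61.KR.Shade

/-!
# MP_850839, `n = 3`: planar brushes and critical families

Let `N` `δ`-tubes in `ℝ³` with `δ`-separated orientations be given, with shadings (measurable
subsets) `Y (T) ⊆ T`.  A planar brush is a set of tubes which lie near one plane and all meet one of
them, the stem.

Let `q > 3/2`.  For every family, all shadings and every level `t`, the points which lie in `t` or
more of the shadings outside a critical subfamily obey the weak form of the conjectured inequality.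
Put `λ = N ^ (q - 3/2) / t ^ (q - 1)`, `P = N ^ (-ε) λ t`, `Q = m (t / N) ^ (2 q - 3 - ε)` with
`m = min (N, 1 / δ)`, and let `F` be the set of the points which lie in `t / 80` or more shadings of
the critical subfamily.  It has at least `λ N` tubes.  The shading of each of them has at least the
volume `λ δ²` in `F`, and is, for some `φ`, met at points of `F` and at angles about `φ` by the
shadings of at least `P φ / δ` tubes, `P` or more of which form a planar brush with it.  But no plane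
contains `Q` or more tubes.  For `N = δ^(-2)` the thresholds `P` and `Q` meet at Wolff's exponent
`q = 5/3`, where both are `(N^(1/2) t)^(1/3)`.  So the conjectured inequality holds for `q' > q` as
soon as the critical subfamilies, with the points of multiplicity below `4 t` as shading, obey its
weak form, in particular if no tube is the stem of a planar brush as above with `N ^ ρ` in the place
of `P` and `t`, `ρ = (q - 3/2 - ε) / (q - 1)`.

Proof: the estimate for families near few planes (`Pool.Agent.Zk61.KP`), applied to the tubes in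
rich planes, removed greedily; the tubes with a small part in the level set, removed one after the
other, form a family with small level sets (Chebyshev); the others have large row sums, as in
Córdoba's `L²` argument; the tubes which meet a given tube at angles `≤ φ` lie near `C φ / δ` planes
through it.
-/

set_option autoImplicit false

open MeasureTheory Set Metric

namespace Pool.Agent.Results.MP_850839_an.PlanarBrushes

/-- The `δ`-tube in `ℝ³` with centre `a` and direction `e` (a unit vector): the closed cylinder of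
length `1` and radius `δ` around the segment with centre `a` and direction `e`. -/
def tube (δ : ℝ) (a e : EuclideanSpace ℝ (Fin 3)) : Set (EuclideanSpace ℝ (Fin 3)) :=
  {y | |inner ℝ (y - a) e| ≤ 1 / 2 ∧ ‖(y - a) - (inner ℝ (y - a) e) • e‖ ≤ δ}

/-- The directions `e i`, `i ∈ s`, are unit vectors and `δ`-separated. -/
def Separated {ι : Type} (δ : ℝ) (e : ι → EuclideanSpace ℝ (Fin 3)) (s : Finset ι) : Prop :=
  (∀ i ∈ s, ‖e i‖ = 1) ∧ ∀ i ∈ s, ∀ i' ∈ s, i ≠ i' → δ ≤ ‖e i - e i'‖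

/-- The inequality of the problem for `n = 3` with the constant `A`, for the family of the
`δ`-tubes with centres `a i` and directions `e i`, `i ∈ s`, and with the number `N` on the right. -/
def TubeIneq {ι : Type} (q A N δ : ℝ) (a e : ι → EuclideanSpace ℝ (Fin 3)) (s : Finset ι) : Prop :=
  eLpNorm (fun x => ∑ i ∈ s, (tube δ (a i) (e i)).indicator (fun _ => (1 : ℝ)) x)
      (ENNReal.ofReal q) volume ≤
    ENNReal.ofReal (A * δ ^ (2 / q) * N ^ (1 - 1 / (2 * q)))

/-- The points which lie in at least `t` of the sets `Y i`, `i ∈ s`. -/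
def level {ι : Type} (t : ℝ) (Y : ι → Set (EuclideanSpace ℝ (Fin 3))) (s : Finset ι) :
    Set (EuclideanSpace ℝ (Fin 3)) :=
  {x | t ≤ ∑ i ∈ s, (Y i).indicator (fun _ => (1 : ℝ)) x}

/-- The points of the tube with number `i` which lie in fewer than `4 t` tubes of `s`. -/
def cut {ι : Type} (t δ : ℝ) (a e : ι → EuclideanSpace ℝ (Fin 3)) (s : Finset ι) (i : ι) :
    Set (EuclideanSpace ℝ (Fin 3)) :=
  tube δ (a i) (e i) \ level (4 * t) (fun j => tube δ (a j) (e j)) s

/-- The sets `Y i` are shadings of the tubes: measurable subsets. -/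
def Shading {ι : Type} (δ : ℝ) (a e : ι → EuclideanSpace ℝ (Fin 3))
    (Y : ι → Set (EuclideanSpace ℝ (Fin 3))) : Prop :=
  ∀ i, MeasurableSet (Y i) ∧ Y i ⊆ tube δ (a i) (e i)

/-- The sets `T i`, `i ∈ u`, lie in the `K δ`-neighbourhood of one plane. -/
def Coplanar {ι : Type} (K δ : ℝ) (T : ι → Set (EuclideanSpace ℝ (Fin 3))) (u : Finset ι) : Prop :=
  ∃ W : AffineSubspace ℝ (EuclideanSpace ℝ (Fin 3)), Module.finrank ℝ W.direction = 2 ∧
    ∀ i ∈ u, T i ⊆ cthickening (K * δ) (W : Set (EuclideanSpace ℝ (Fin 3)))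

/-- The tube `T m` is a stem of the family `w` over the set `F` with the parameter `P`, for the
shadings `Y i` of the tubes `T i`: there are `φ` and a family `h` of at least `P φ / δ` tubes of `w`,
the shadings of which all meet `Y m` at points of `F`, at angles about `φ` (the sines lie between
`φ / 2` and `φ`, or between `0` and `δ` if `φ = δ`), and `P` or more of these tubes, `T m` included,
form a planar brush: they lie near one plane. -/
def Stem {ι : Type} (K δ P : ℝ) (a e : ι → EuclideanSpace ℝ (Fin 3))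
    (Y : ι → Set (EuclideanSpace ℝ (Fin 3))) (F : Set (EuclideanSpace ℝ (Fin 3)))
    (w : Finset ι) (m : ι) : Prop :=
  ∃ φ : ℝ, δ ≤ φ ∧ φ ≤ 1 ∧ ∃ h ⊆ w, P * φ / δ ≤ (h.card : ℝ) ∧
    (∀ i ∈ h, (Y m ∩ Y i ∩ F).Nonempty ∧
      ‖e i - (inner ℝ (e m) (e i) : ℝ) • e m‖ ≤ φ ∧
      (φ = δ ∨ φ / 2 < ‖e i - (inner ℝ (e m) (e i) : ℝ) • e m‖)) ∧
    ∃ u : Finset ι, m ∈ u ∧ (∀ i ∈ u, i ≠ m → i ∈ h) ∧ P ≤ (u.card : ℝ) ∧
      Coplanar K δ (fun i => tube δ (a i) (e i)) u

/-- The family `w` with the shadings `Y i` is critical with the parameters `n`, `lam`, `P`, `Q`, `τ`.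
Let `F` be the set of the points which lie in at least `τ` shadings of tubes of `w`.
* There are at least `n` tubes in `w`, each shading has at least the volume `lam δ²` in `F`.
* Each tube of `w` is a stem of `w` over `F` with the parameter `P`.
* Fewer than `Q` tubes of `w` lie near one plane. -/
def Critical {ι : Type} (K δ n lam P Q τ : ℝ) (a e : ι → EuclideanSpace ℝ (Fin 3))
    (Y : ι → Set (EuclideanSpace ℝ (Fin 3))) (w : Finset ι) : Prop :=
  n ≤ (w.card : ℝ) ∧
  (∀ m ∈ w, ENNReal.ofReal (lam * δ ^ 2) ≤ volume (Y m ∩ level τ Y w)) ∧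
  (∀ m ∈ w, Stem K δ P a e Y (level τ Y w) w m) ∧
  ∀ u ⊆ w, u.Nonempty → Coplanar K δ (fun i => tube δ (a i) (e i)) u → (u.card : ℝ) < Q

open Classical in
/-- Greedy decomposition. -/
theorem peel {ι : Type} (R : Finset ι → Prop) (hR : ∀ u, R u → u.Nonempty) (s : Finset ι) :
    ∃ w ⊆ s, (∃ c : ι → ℕ, ∀ l ∈ w.image c, R (w.filter fun i => c i = l)) ∧
      ∀ u ⊆ s \ w, ¬ R u := by
  set P : Finset ι → Prop := fun u =>
    ∃ c : ι → ℕ, ∀ l ∈ u.image c, R (u.filter fun i => c i = l) with hP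
  obtain ⟨u, hu, hmax⟩ := Finset.exists_max_image (s.powerset.filter P) Finset.card
    ⟨∅, by simp [hP]⟩
  simp only [Finset.mem_filter, Finset.mem_powerset] at hu hmax
  obtain ⟨hus, c, hc⟩ := hu
  refine ⟨u, hus, ⟨c, hc⟩, ?_⟩
  intro u' hu' hRu'
  have hu's : u' ⊆ s := hu'.trans Finset.sdiff_subset
  have hdisj : Disjoint u u' := by
    rw [Finset.disjoint_right]
    intro i hi
    exact (Finset.mem_sdiff.1 (hu' hi)).2
  have hne : u'.Nonempty := hR u' hRu'
  obtain ⟨l0, hl0⟩ : ∃ l0, l0 ∉ u.image c := Infinite.exists_notMem_finset _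
  have hnot : ∀ i ∈ u, i ∉ u' := fun i hi hi' => Finset.disjoint_left.1 hdisj hi hi'
  have himg : (u ∪ u').image (fun i => if i ∈ u' then l0 else c i) =
      insert l0 (u.image c) := by
    ext l
    simp only [Finset.mem_image, Finset.mem_union, Finset.mem_insert]
    constructor
    · rintro ⟨i, hi, rfl⟩
      by_cases h : i ∈ u'
      · simp [h]
      · rcases hi with hi | hi
        · right; exact ⟨i, hi, by simp [h]⟩
        · exact absurd hi h
    · rintro (rfl | ⟨i, hi, rfl⟩)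
      · obtain ⟨i, hi⟩ := hne
        exact ⟨i, Or.inr hi, by simp [hi]⟩
      · exact ⟨i, Or.inl hi, by simp [hnot i hi]⟩
  have hPu : P (u ∪ u') := by
    refine ⟨fun i => if i ∈ u' then l0 else c i, ?_⟩
    intro l hl
    rw [himg, Finset.mem_insert] at hl
    by_cases hll : l = l0
    · subst hll
      have e1 : (u ∪ u').filter (fun i => (if i ∈ u' then l else c i) = l) = u' := by
        ext i
        simp only [Finset.mem_filter, Finset.mem_union]
        constructor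
        · rintro ⟨hi, h⟩
          by_contra hi'
          rw [if_neg hi'] at h
          rcases hi with hi | hi
          · exact hl0 (h ▸ Finset.mem_image_of_mem c hi)
          · exact hi' hi
        · intro hi
          exact ⟨Or.inr hi, by simp [hi]⟩
      convert hRu' using 1
    · rcases hl with hl | hl
      · exact absurd hl hll
      have e1 : (u ∪ u').filter (fun i => (if i ∈ u' then l0 else c i) = l) =
          u.filter (fun i => c i = l) := by
        ext i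
        simp only [Finset.mem_filter, Finset.mem_union]
        constructor
        · rintro ⟨hi, h⟩
          by_cases hi' : i ∈ u'
          · rw [if_pos hi'] at h
            exact absurd h.symm hll
          · rw [if_neg hi'] at h
            exact ⟨hi.resolve_right hi', h⟩
        · rintro ⟨hi, h⟩
          exact ⟨Or.inl hi, by rw [if_neg (hnot i hi)]; exact h⟩
      convert hc l hl using 1
  have h1 := hmax (u ∪ u') ⟨Finset.union_subset hus hu's, hPu⟩
  rw [Finset.card_union_of_disjoint hdisj] at h1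
  have h2 : 0 < u'.card := hne.card_pos
  omega

theorem sum_eq {ι : Type} (Y : ι → Set (EuclideanSpace ℝ (Fin 3))) (s : Finset ι)
    (x : EuclideanSpace ℝ (Fin 3)) :
    ∑ i ∈ s, (Y i).indicator (fun _ => (1 : ℝ)) x = (Pool.Agent.Zk61.KP.cnt Y s x : ℝ) := by
  classical
  unfold Pool.Agent.Zk61.KP.cnt
  rw [Finset.card_filter]
  push_cast
  apply Finset.sum_congr rfl
  intro i _
  rw [Set.indicator_apply]

theorem level_eq {ι : Type} (t : ℝ) (Y : ι → Set (EuclideanSpace ℝ (Fin 3))) (s : Finset ι) :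
    level t Y s = {x | t ≤ (Pool.Agent.Zk61.KP.cnt Y s x : ℝ)} := by
  ext x
  show t ≤ _ ↔ t ≤ _
  rw [sum_eq]

theorem level_sub {ι : Type} {t δ : ℝ} {a e : ι → EuclideanSpace ℝ (Fin 3)}
    {Y : ι → Set (EuclideanSpace ℝ (Fin 3))} (hY : ∀ i, Y i ⊆ tube δ (a i) (e i)) (s : Finset ι) :
    level t Y s ⊆ level t (fun i => tube δ (a i) (e i)) s := by
  intro x hx
  have hx1 : t ≤ ∑ i ∈ s, (Y i).indicator (fun _ => (1 : ℝ)) x := hx
  refine hx1.trans (Finset.sum_le_sum fun i _ => ?_)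
  exact Set.indicator_le_indicator_of_subset (hY i) (fun _ => zero_le_one) x

/-- Chebyshev. -/
theorem cheb {ι : Type} {q B t δ : ℝ} (hq : 0 < q) (ht : 0 < t)
    (a e : ι → EuclideanSpace ℝ (Fin 3)) {Y : ι → Set (EuclideanSpace ℝ (Fin 3))}
    (hY : ∀ i, Y i ⊆ tube δ (a i) (e i)) (s : Finset ι)
    (h : ∫⁻ x, ENNReal.ofReal ((Pool.Agent.Zk61.KP.cnt
        (fun i => Pool.Agent.Zk61.KP.tube δ (a i) (e i)) s x : ℝ) ^ q) ≤ ENNReal.ofReal B) :
    volume (level t Y s) ≤ ENNReal.ofReal (B / t ^ q) := by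
  have hm : Measurable fun x => ENNReal.ofReal ((Pool.Agent.Zk61.KP.cnt
      (fun i => Pool.Agent.Zk61.KP.tube δ (a i) (e i)) s x : ℝ) ^ q) :=
    ((Pool.Agent.Zk61.KP.measurable_cnt _
      (fun i => Pool.Agent.Zk61.KP.measurableSet_tube δ (a i) (e i)) s).pow_const q).ennreal_ofReal
  have htq : 0 < t ^ q := by positivity
  have h1 := meas_ge_le_lintegral_div (μ := volume) hm.aemeasurable
    (ε := ENNReal.ofReal (t ^ q)) (by rw [ne_eq, ENNReal.ofReal_eq_zero, not_le]; exact htq)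
    ENNReal.ofReal_ne_top
  have h2 : level t Y s ⊆ {x | ENNReal.ofReal (t ^ q) ≤
      ENNReal.ofReal ((Pool.Agent.Zk61.KP.cnt
        (fun i => Pool.Agent.Zk61.KP.tube δ (a i) (e i)) s x : ℝ) ^ q)} := by
    intro x hx
    have hx1 : t ≤ ∑ i ∈ s, (tube δ (a i) (e i)).indicator (fun _ => (1 : ℝ)) x :=
      level_sub hY s hx
    rw [sum_eq] at hx1
    exact ENNReal.ofReal_le_ofReal (Real.rpow_le_rpow ht.le hx1 hq.le)
  refine (measure_mono h2).trans (h1.trans ?_)
  rw [ENNReal.ofReal_div_of_pos htq]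
  gcongr

/-- From the integral of the `q`-th power to the norm. -/
theorem of_lint {ι : Type} {q B : ℝ} (hq : 0 < q) (hB : 0 ≤ B) (δ : ℝ)
    (a e : ι → EuclideanSpace ℝ (Fin 3)) (s : Finset ι)
    (h : ∫⁻ x, ENNReal.ofReal ((Pool.Agent.Zk61.KP.cnt
        (fun i => Pool.Agent.Zk61.KP.tube δ (a i) (e i)) s x : ℝ) ^ q) ≤ ENNReal.ofReal B) :
    eLpNorm (fun x => ∑ i ∈ s, (tube δ (a i) (e i)).indicator (fun _ => (1 : ℝ)) x)
      (ENNReal.ofReal q) volume ≤ ENNReal.ofReal (B ^ (1 / q)) := by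
  rw [eLpNorm_eq_lintegral_rpow_enorm_toReal (by
    rw [ne_eq, ENNReal.ofReal_eq_zero, not_le]; exact hq) ENNReal.ofReal_ne_top,
    ENNReal.toReal_ofReal hq.le]
  have e3 : ∀ x, ‖∑ i ∈ s, (tube δ (a i) (e i)).indicator (fun _ => (1 : ℝ)) x‖ₑ ^ q =
      ENNReal.ofReal ((Pool.Agent.Zk61.KP.cnt
        (fun i => Pool.Agent.Zk61.KP.tube δ (a i) (e i)) s x : ℝ) ^ q) := by
    intro x
    have h1 : ∑ i ∈ s, (tube δ (a i) (e i)).indicator (fun _ => (1 : ℝ)) x =
        (Pool.Agent.Zk61.KP.cnt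
          (fun i => Pool.Agent.Zk61.KP.tube δ (a i) (e i)) s x : ℝ) := by
      classical
      unfold Pool.Agent.Zk61.KP.cnt
      rw [Finset.card_filter]
      push_cast
      apply Finset.sum_congr rfl
      intro i _
      rw [Set.indicator_apply]
      rfl
    rw [h1, Real.enorm_of_nonneg (Nat.cast_nonneg _),
      ENNReal.ofReal_rpow_of_nonneg (Nat.cast_nonneg _) hq.le]
  simp only [e3]
  refine (ENNReal.rpow_le_rpow h (by positivity)).trans (le_of_eq ?_)
  rw [ENNReal.ofReal_rpow_of_nonneg hB (by positivity)]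

/-- `of_lint` for a bound of the form needed. -/
theorem ineq_of_lint {ι : Type} {q C N δ : ℝ} (hq : 0 < q) (hC : 0 ≤ C) (hN : 0 ≤ N)
    (hδ : 0 < δ) (a e : ι → EuclideanSpace ℝ (Fin 3)) (s : Finset ι)
    (h : ∫⁻ x, ENNReal.ofReal ((Pool.Agent.Zk61.KP.cnt
        (fun i => Pool.Agent.Zk61.KP.tube δ (a i) (e i)) s x : ℝ) ^ q) ≤
      ENNReal.ofReal (C * δ ^ 2 * N ^ (q - 1 / 2))) :
    TubeIneq q (C ^ (1 / q)) N δ a e s := by
  unfold TubeIneq
  refine (of_lint hq (by positivity) δ a e s h).trans (le_of_eq ?_)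
  congr 1
  rw [Real.mul_rpow (by positivity) (by positivity), Real.mul_rpow (by positivity) (by positivity),
    ← Real.rpow_natCast δ 2, ← Real.rpow_mul hδ.le, ← Real.rpow_mul hN]
  congr 2
  · congr 1
    push_cast
    ring
  · field_simp

theorem add_ineq {ι : Type} [DecidableEq ι] {q A B N δ : ℝ} (hq : 1 ≤ q) (hA : 0 ≤ A) (hB : 0 ≤ B)
    (hN : 0 ≤ N) (hδ : 0 < δ) (a e : ι → EuclideanSpace ℝ (Fin 3)) {s w : Finset ι} (hw : w ⊆ s)
    (h1 : TubeIneq q A N δ a e w) (h2 : TubeIneq q B N δ a e (s \ w)) :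
    TubeIneq q (A + B) N δ a e s := by
  unfold TubeIneq at h1 h2 ⊢
  have hmeas : ∀ v : Finset ι, AEStronglyMeasurable
      (fun x => ∑ i ∈ v, (tube δ (a i) (e i)).indicator (fun _ => (1 : ℝ)) x)
      (volume : Measure (EuclideanSpace ℝ (Fin 3))) := by
    intro v
    refine (Finset.measurable_sum _ fun i _ => ?_).aestronglyMeasurable
    exact measurable_const.indicator (Pool.Agent.Zk61.KP.measurableSet_tube δ (a i) (e i))
  have hsum : (fun x => ∑ i ∈ s, (tube δ (a i) (e i)).indicator (fun _ => (1 : ℝ)) x) =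
      (fun x => ∑ i ∈ w, (tube δ (a i) (e i)).indicator (fun _ => (1 : ℝ)) x) +
      (fun x => ∑ i ∈ s \ w, (tube δ (a i) (e i)).indicator (fun _ => (1 : ℝ)) x) := by
    ext x
    rw [Pi.add_apply, add_comm, Finset.sum_sdiff hw]
  rw [hsum]
  refine (eLpNorm_add_le (hmeas _) (hmeas _) (by
    rw [← ENNReal.ofReal_one]; exact ENNReal.ofReal_le_ofReal hq)).trans ?_
  refine (add_le_add h1 h2).trans ?_
  rw [← ENNReal.ofReal_add (by positivity) (by positivity)]
  apply ENNReal.ofReal_le_ofReal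
  exact le_of_eq (by ring)

theorem mono_ineq {ι : Type} {q A B N N' δ : ℝ} (hq : 1 ≤ q) (hB : 0 ≤ B) (hAB : A ≤ B)
    (hN : 0 ≤ N) (hNN : N ≤ N') (hδ : 0 < δ) {a e : ι → EuclideanSpace ℝ (Fin 3)} {s : Finset ι}
    (h1 : TubeIneq q A N δ a e s) : TubeIneq q B N' δ a e s := by
  unfold TubeIneq at h1 ⊢
  refine h1.trans (ENNReal.ofReal_le_ofReal ?_)
  have h2 : 0 ≤ 1 - 1 / (2 * q) := by
    rw [sub_nonneg, div_le_one (by positivity)]
    linarith
  gcongr

open Classical in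
/-- Few planes. -/
theorem rich_int {q τ K : ℝ} (hq : 3 / 2 < q) (hq2 : q ≤ 2) (hτ : 1 / (2 * q) < τ) (hK : 1 ≤ K) :
    ∃ C : ℝ, 0 < C ∧ ∀ δ : ℝ, 0 < δ → δ < 1 → ∀ M : ℝ, 1 ≤ M → ∀ (ι : Type) (u : Finset ι)
      (a e : ι → EuclideanSpace ℝ (Fin 3)), Separated δ e u → ∀ N : ℝ, (u.card : ℝ) ≤ N →
      (∃ c : ι → ℕ, ((u.image c).card : ℝ) ≤ M * max 1 (δ * N) ∧ ∀ l ∈ u.image c,
        Coplanar K δ (fun i => tube δ (a i) (e i)) (u.filter fun i => c i = l)) →
      ∫⁻ x, ENNReal.ofReal ((Pool.Agent.Zk61.KP.cnt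
        (fun i => Pool.Agent.Zk61.KP.tube δ (a i) (e i)) u x : ℝ) ^ q) ≤
      ENNReal.ofReal (C * M ^ (τ * q) * δ ^ 2 * N ^ (q - 1 / 2)) := by
  have hq0 : 0 < q := by linarith
  have hτq : 1 / 2 < τ * q := by
    rw [div_lt_iff₀ (by positivity)] at hτ
    linarith
  -- a smaller exponent
  set τ' : ℝ := min τ (1 / q) with hτ'
  have hτ'1 : 1 / (2 * q) < τ' := by
    apply lt_min hτ
    rw [div_lt_div_iff₀ (by positivity) hq0]
    linarith
  have hτ'q : 1 / 2 < τ' * q := by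
    rw [div_lt_iff₀ (by positivity)] at hτ'1
    linarith
  have hτ'q1 : τ' * q ≤ 1 := by
    have : τ' ≤ 1 / q := min_le_right _ _
    rw [le_div_iff₀ hq0] at this
    exact this
  have hτ'q2 : τ' * q ≤ τ * q := by
    have : τ' ≤ τ := min_le_left _ _
    gcongr
  obtain ⟨C1, hC1, h1⟩ := Pool.Agent.Zk61.KP.main_q (n := 3) (q := q) (τ := τ') (K := K) le_rfl
    (by norm_num; linarith) (by
      have e1 : (((3 : ℕ) : ℝ) - 2) / ((((3 : ℕ) : ℝ) - 1) * q) = 1 / (2 * q) := by norm_num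
      rw [e1]
      exact hτ'1) hK
  set η : ℝ := min (q - 3 / 2) (τ' * q - 1 / 2) with hη
  have hη0 : 0 < η := lt_min (by linarith) (by linarith)
  have hη1 : η ≤ q - 3 / 2 := min_le_left _ _
  have hη2 : η ≤ τ' * q - 1 / 2 := min_le_right _ _
  obtain ⟨C2, hC2, h2⟩ := Pool.Agent.Zk61.KR.planes (q := q) (η := η) (by linarith) hq2 hη0 hK
  refine ⟨C1 + C2, by positivity, ?_⟩
  intro δ hδ hδ1 M hM ι u a e hsepu N hNu ⟨c, hL, hc⟩
  have hM0 : 0 < M := by linarith
  rcases u.eq_empty_or_nonempty with hu | hu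
  · subst hu
    have h1 : ∀ x, (Pool.Agent.Zk61.KP.cnt
        (fun i => Pool.Agent.Zk61.KP.tube δ (a i) (e i)) ∅ x : ℝ) = 0 := by
      intro x; unfold Pool.Agent.Zk61.KP.cnt; simp
    simp only [h1, Real.zero_rpow hq0.ne']
    simp
  have hu1 : (1 : ℝ) ≤ u.card := by exact_mod_cast hu.card_pos
  have hu0 : (0 : ℝ) < u.card := by linarith
  have hN1 : (1 : ℝ) ≤ N := hu1.trans hNu
  have hN0 : (0 : ℝ) < N := by linarith
  have hL1 : (1 : ℝ) ≤ (u.image c).card := by exact_mod_cast (hu.image c).card_pos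
  have hLu : ((u.image c).card : ℝ) ≤ u.card := by exact_mod_cast Finset.card_image_le
  have hMτ : M ^ (τ' * q) ≤ M ^ (τ * q) := Real.rpow_le_rpow_of_exponent_le hM hτ'q2
  rcases le_total 1 (δ * N) with hcase | hcase
  · rw [max_eq_right hcase] at hL
    set D : ℝ := M * (N / u.card) with hD
    have hsu : 1 ≤ N / u.card := by rw [one_le_div hu0]; exact hNu
    have hD1 : 1 ≤ D := by rw [hD]; nlinarith
    have hLay : Pool.Agent.Zk61.KP.Lay K D δ
        (fun i => Pool.Agent.Zk61.KP.tube δ (a i) (e i)) (3 - 2) ⊤ u := by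
      refine ⟨by rw [AffineSubspace.direction_top, finrank_top, finrank_euclideanSpace_fin],
        c, ?_, ?_⟩
      · show _ ≤ D * δ ^ 1 * _
        rw [pow_one, hD]
        refine hL.trans (le_of_eq ?_)
        field_simp
      · intro l hl
        obtain ⟨W, hW, hWT⟩ := hc l hl
        exact ⟨W, le_top, hW, hWT⟩
    have h3 := h1 δ hδ hδ1.le D hD1 ι u a e hsepu.1 hsepu.2 hLay
    refine h3.trans (ENNReal.ofReal_le_ofReal ?_)
    have e1 : (3 : ℕ) - 1 = 2 := rfl
    have e2 : q - 1 / (((3 : ℕ) : ℝ) - 1) = q - 1 / 2 := by norm_num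
    rw [e1, e2]
    have h4 : D ^ (τ' * q) * (u.card : ℝ) ^ (q - 1 / 2) ≤
        M ^ (τ' * q) * N ^ (q - 1 / 2) := by
      rw [hD, Real.mul_rpow hM0.le (by positivity), mul_assoc]
      have h5 : (N / u.card) ^ (τ' * q) ≤ (N / u.card) ^ (q - 1 / 2) :=
        Real.rpow_le_rpow_of_exponent_le hsu (by linarith)
      have h6 : (N / u.card) ^ (q - 1 / 2) * (u.card : ℝ) ^ (q - 1 / 2) =
          N ^ (q - 1 / 2) := by
        rw [← Real.mul_rpow (by positivity) (by positivity), div_mul_cancel₀ _ hu0.ne']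
      calc M ^ (τ' * q) * ((N / u.card) ^ (τ' * q) * (u.card : ℝ) ^ (q - 1 / 2))
          ≤ M ^ (τ' * q) * ((N / u.card) ^ (q - 1 / 2) *
            (u.card : ℝ) ^ (q - 1 / 2)) := by gcongr
        _ = _ := by rw [h6]
    calc C1 * D ^ (τ' * q) * δ ^ 2 * (u.card : ℝ) ^ (q - 1 / 2)
        = C1 * δ ^ 2 * (D ^ (τ' * q) * (u.card : ℝ) ^ (q - 1 / 2)) := by ring
      _ ≤ C1 * δ ^ 2 * (M ^ (τ' * q) * N ^ (q - 1 / 2)) := by gcongr
      _ ≤ (C1 + C2) * δ ^ 2 * (M ^ (τ * q) * N ^ (q - 1 / 2)) := by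
          gcongr
          linarith
      _ = _ := by ring
  · rw [max_eq_left hcase, mul_one] at hL
    have h3 := h2 δ hδ hδ1.le ι u a e hsepu.1 hsepu.2 c hc
    refine h3.trans (ENNReal.ofReal_le_ofReal ?_)
    have h4 : ((u.image c).card : ℝ) ^ (q - 1) * (u.card : ℝ) ^ (1 + η) ≤
        M ^ (τ' * q) * N ^ (q - 1 / 2) := by
      have hL0 : (0 : ℝ) < (u.image c).card := by linarith
      have h5 : (u.card : ℝ) ^ (1 + η) ≤ N ^ (1 + η) :=
        Real.rpow_le_rpow (by positivity) hNu (by linarith)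
      have h6 : ((u.image c).card : ℝ) ^ (τ' * q) ≤ M ^ (τ' * q) :=
        Real.rpow_le_rpow (by positivity) hL (by linarith)
      rcases le_total (q - 1) (τ' * q) with h7 | h7
      · have h8 : ((u.image c).card : ℝ) ^ (q - 1) ≤ ((u.image c).card : ℝ) ^ (τ' * q) :=
          Real.rpow_le_rpow_of_exponent_le hL1 h7
        have h9 : N ^ (1 + η) ≤ N ^ (q - 1 / 2) :=
          Real.rpow_le_rpow_of_exponent_le hN1 (by linarith)
        have h10 := h8.trans h6
        have h11 := h5.trans h9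
        gcongr
      · have h8 : ((u.image c).card : ℝ) ^ (q - 1) =
            ((u.image c).card : ℝ) ^ (τ' * q) * ((u.image c).card : ℝ) ^ (q - 1 - τ' * q) := by
          rw [← Real.rpow_add hL0]
          congr 1
          ring
        have h9 : ((u.image c).card : ℝ) ^ (q - 1 - τ' * q) ≤ N ^ (q - 1 - τ' * q) :=
          Real.rpow_le_rpow (by positivity) (hLu.trans hNu) (by linarith)
        have h10 : N ^ (q - 1 - τ' * q) * N ^ (1 + η) ≤
            N ^ (q - 1 / 2) := by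
          rw [← Real.rpow_add hN0]
          exact Real.rpow_le_rpow_of_exponent_le hN1 (by linarith)
        calc ((u.image c).card : ℝ) ^ (q - 1) * (u.card : ℝ) ^ (1 + η)
            = ((u.image c).card : ℝ) ^ (τ' * q) * (((u.image c).card : ℝ) ^ (q - 1 - τ' * q) *
              (u.card : ℝ) ^ (1 + η)) := by rw [h8]; ring
          _ ≤ M ^ (τ' * q) * (N ^ (q - 1 - τ' * q) * N ^ (1 + η)) := by
              gcongr
          _ ≤ M ^ (τ' * q) * N ^ (q - 1 / 2) := by gcongr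
    calc C2 * ((u.image c).card : ℝ) ^ (q - 1) * δ ^ 2 * (u.card : ℝ) ^ (1 + η)
        = C2 * δ ^ 2 * (((u.image c).card : ℝ) ^ (q - 1) * (u.card : ℝ) ^ (1 + η)) := by ring
      _ ≤ C2 * δ ^ 2 * (M ^ (τ' * q) * N ^ (q - 1 / 2)) := by gcongr
      _ ≤ (C1 + C2) * δ ^ 2 * (M ^ (τ * q) * N ^ (q - 1 / 2)) := by
          gcongr
          linarith
      _ = _ := by ring

open Classical in
/-- **The main inequality**: all families, all levels. -/
theorem master {K ε : ℝ} (hK : 4 ≤ K) (hε : 0 < ε) (hε1 : ε ≤ 1 / 2) :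
    ∃ C : ℝ, 0 < C ∧ ∀ δ : ℝ, 0 < δ → δ < 1 →
      ∀ (ι : Type) (s : Finset ι) (a e : ι → EuclideanSpace ℝ (Fin 3)), Separated δ e s →
      ∀ Y : ι → Set (EuclideanSpace ℝ (Fin 3)), Shading δ a e Y →
      ∀ N : ℝ, (s.card : ℝ) ≤ N → 1 ≤ N →
      ∀ t P Q L τ lam : ℝ, 1 ≤ t → 1 ≤ P → 0 < Q → Q ≤ min N (1 / δ) → P * N ^ ε ≤ L →
        τ ≤ t / 4 → lam ≤ L / t →
        ∃ w ⊆ s, Critical K δ 0 lam P Q τ a e Y w ∧
          volume (level t Y (s \ w)) ≤
            ENNReal.ofReal (C * δ ^ 2 *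
              (N * L / t ^ (2 : ℝ) +
                N ^ (1 + ε) * ((min N (1 / δ) / Q) ^ (1 / 2 + ε) / t ^ (3 / 2 + ε)))) := by
  set q : ℝ := 3 / 2 + ε with hq
  set σ : ℝ := (1 / 2 + ε) / q with hσ
  have hq0 : 0 < q := by positivity
  have hσq : σ * q = 1 / 2 + ε := div_mul_cancel₀ _ hq0.ne'
  obtain ⟨C1, hC1, hrich⟩ := rich_int (q := q) (τ := σ) (K := K) (by linarith) (by linarith) (by
    rw [hσ, div_lt_div_iff₀ (by positivity) hq0]
    nlinarith) (by linarith)
  obtain ⟨CJ, hCJ, hJ⟩ := Pool.Agent.Zk61.KP.exists_pow hε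
  have hCv := Pool.Agent.Y254.Cv_pos 3
  have hCc := Pool.Agent.Zk61.KP.Cc_pos 3
  set R : ℝ := Pool.Agent.Zk61.KP.Cc 3 + 1 with hR
  have hR1 : 1 ≤ R := by linarith
  set B : ℝ := 16 * (4 + 6 * Pool.Agent.Y254.Cv 3) * R * CJ + 1 with hB
  have hB1 : 1 ≤ B := by
    have : 0 ≤ 16 * (4 + 6 * Pool.Agent.Y254.Cv 3) * R * CJ := by positivity
    linarith
  have hB0 : 0 < B := by linarith
  refine ⟨4 * (C1 + B), by positivity, ?_⟩
  intro δ hδ hδ1 ι s a e hsep Y hYs N hsN hN1 t P Q L τ lam ht hP hQ hQm hPL hτt hlam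
  have ht0 : 0 < t := by linarith
  have hP0 : 0 < P := by linarith
  set m : ℝ := min N (1 / δ) with hm
  have hm0 : 0 < m := hQ.trans_le hQm
  have hN0 : 0 < N := by linarith
  have hL0 : 0 < L := lt_of_lt_of_le (by positivity) hPL
  set M : ℝ := m / Q with hM
  have hM1 : 1 ≤ M := by rw [hM, one_le_div hQ]; exact hQm
  obtain ⟨u, hus, hu, hsu⟩ := peel (fun u => Coplanar K δ (fun i => tube δ (a i) (e i)) u ∧
    Q ≤ (u.card : ℝ)) (by
      rintro u ⟨_, h⟩
      rw [← Finset.card_pos]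
      exact_mod_cast hQ.trans_le h) s
  have hRP : 1 ≤ R * P := by nlinarith
  obtain ⟨J, hJ1, hJ2, hJ3⟩ := hJ N hN1
  have hJr : (1 : ℝ) ≤ J := by exact_mod_cast hJ1
  have hTm : ∀ i, MeasurableSet (Y i) := fun i => (hYs i).1
  have hY : ∀ i, Y i ⊆ tube δ (a i) (e i) := fun i => (hYs i).2
  obtain ⟨w, hw, hwc, hwv⟩ := Pool.Agent.Zk61.KR.peel_thin Y hTm (τ := t / 4) (by positivity)
    (ENNReal.ofReal (B * δ ^ 2 * (L / t))) (s \ u)
  have hws : w ⊆ s := hw.trans Finset.sdiff_subset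
  have hdense : ∀ m ∈ w, ENNReal.ofReal (lam * δ ^ 2) ≤
      volume (Y m ∩ level τ Y w) := by
    intro m hm
    have h1 : ENNReal.ofReal (lam * δ ^ 2) ≤ ENNReal.ofReal (B * δ ^ 2 * (L / t)) := by
      apply ENNReal.ofReal_le_ofReal
      have h2 : 0 ≤ L / t := by positivity
      calc lam * δ ^ 2 ≤ (L / t) * δ ^ 2 := by gcongr
        _ = 1 * δ ^ 2 * (L / t) := by ring
        _ ≤ B * δ ^ 2 * (L / t) := by gcongr
    refine h1.trans ((hwc m hm).trans (measure_mono ?_))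
    rw [level_eq]
    refine inter_subset_inter_right _ ?_
    intro x hx
    exact hτt.trans hx
  have hFF : {x | t / 4 ≤ (Pool.Agent.Zk61.KP.cnt Y w x : ℝ)} ⊆ level τ Y w := by
    rw [level_eq]
    intro x hx
    exact hτt.trans hx
  have hhair : ∀ m ∈ w, ∃ φ : ℝ, δ ≤ φ ∧ φ ≤ 1 ∧ ∃ h ⊆ w,
      R * P * φ ≤ δ * (h.card : ℝ) ∧
      ∀ i ∈ h, (Y m ∩ Y i ∩ level τ Y w).Nonempty ∧
        ‖e i - (inner ℝ (e m) (e i) : ℝ) • e m‖ ≤ φ ∧
        (φ = δ ∨ φ / 2 < ‖e i - (inner ℝ (e m) (e i) : ℝ) • e m‖) := by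
    intro m hm
    by_contra hcon
    have h1 := Pool.Agent.Zk61.KR.dense_shade Y hTm w m (hwc m hm)
    have h2 := Pool.Agent.Zk61.KR.row_shade w a e Y {x | t / 4 ≤ (Pool.Agent.Zk61.KP.cnt
      Y w x : ℝ)} hδ hRP (fun i hi => hsep.1 i (hws hi)) hY hm (by
      intro φ hφ
      by_contra hcon2
      rw [not_le] at hcon2
      apply hcon
      rcases le_or_gt φ 1 with hφ1 | hφ1
      · refine ⟨φ, hφ, hφ1, w.filter fun i => (Y m ∩ Y i ∩
          {x | t / 4 ≤ (Pool.Agent.Zk61.KP.cnt Y w x : ℝ)}).Nonempty ∧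
          Pool.Agent.TH705.RR.sn (e m) (e i) ≤ φ ∧
          (φ = δ ∨ φ / 2 < Pool.Agent.TH705.RR.sn (e m) (e i)), Finset.filter_subset _ _, ?_, ?_⟩
        · rw [mul_comm δ]
          exact hcon2.le
        · intro i hi
          have hi' := Finset.mem_filter.1 hi
          rw [Pool.Agent.TH705.RR.perp_norm (hsep.1 m (hws hm)) (hsep.1 i (hws hi'.1))]
          exact ⟨hi'.2.1.mono (inter_subset_inter_right _ hFF), hi'.2.2.1, hi'.2.2.2⟩
      · refine ⟨1, hδ1.le, le_rfl, w.filter fun i => (Y m ∩ Y i ∩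
          {x | t / 4 ≤ (Pool.Agent.Zk61.KP.cnt Y w x : ℝ)}).Nonempty ∧
          Pool.Agent.TH705.RR.sn (e m) (e i) ≤ φ ∧
          (φ = δ ∨ φ / 2 < Pool.Agent.TH705.RR.sn (e m) (e i)), Finset.filter_subset _ _, ?_, ?_⟩
        · rw [mul_comm δ]
          refine le_trans ?_ hcon2.le
          gcongr
        · intro i hi
          have hi' := Finset.mem_filter.1 hi
          rw [Pool.Agent.TH705.RR.perp_norm (hsep.1 m (hws hm)) (hsep.1 i (hws hi'.1))]
          refine ⟨hi'.2.1.mono (inter_subset_inter_right _ hFF),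
            Pool.Agent.TH705.RR.sn_le_one _ _, Or.inr ?_⟩
          rcases hi'.2.2.2 with h3 | h3
          · linarith
          · linarith) J (by
      refine le_trans ?_ (hsN.trans hJ2)
      exact_mod_cast Finset.card_le_card hws)
    have h3 := h1.trans h2
    rw [← ENNReal.ofReal_mul (by positivity), ENNReal.ofReal_le_ofReal_iff (by positivity)] at h3
    have h4 : (2 : ℝ) + 2 * J ≤ 4 * (CJ * N ^ ε) := by linarith
    have h5 : t / 4 * (B * δ ^ 2 * (L / t)) = B * δ ^ 2 * L / 4 := by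
      field_simp
    rw [h5] at h3
    have h6 : (4 + 6 * Pool.Agent.Y254.Cv 3) * δ ^ 2 * (R * P) * (2 + 2 * J) ≤
        4 * (4 + 6 * Pool.Agent.Y254.Cv 3) * R * CJ * δ ^ 2 * L := by
      calc (4 + 6 * Pool.Agent.Y254.Cv 3) * δ ^ 2 * (R * P) * (2 + 2 * J)
          ≤ (4 + 6 * Pool.Agent.Y254.Cv 3) * δ ^ 2 * (R * P) * (4 * (CJ * N ^ ε)) := by
            gcongr
        _ = 4 * (4 + 6 * Pool.Agent.Y254.Cv 3) * R * CJ * δ ^ 2 * (P * N ^ ε) := by ring
        _ ≤ _ := by gcongr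
    have h7 : 0 < δ ^ 2 * L := by positivity
    rw [hB] at h3
    nlinarith
  have hcrit : ∀ m ∈ w, Stem K δ P a e Y (level τ Y w) w m := by
    intro m hm
    obtain ⟨φ, hφ, hφ1, h, hhw, hcard, hmeet⟩ := hhair m hm
    have hφ0 : 0 < φ := hδ.trans_le hφ
    refine ⟨φ, hφ, hφ1, h, hhw, ?_, hmeet, ?_⟩
    · rw [div_le_iff₀ hδ]
      have : 0 < P * φ := by positivity
      nlinarith
    · by_contra hcon
      have hins : insert m h ⊆ w := Finset.insert_subset hm hhw
      have h3 := Pool.Agent.Zk61.KR.count_plane (insert m h) a e hδ hK hP0.le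
        (fun i hi => hsep.1 i (hws (hins hi))) (Finset.mem_insert_self m h)
        (fun W hW u hu hT hmu _ => by
          by_contra hPu
          exact hcon ⟨u, hmu, fun i hi him => (Finset.mem_insert.1 (hu hi)).resolve_left him,
            (not_le.1 hPu).le, W, hW, hT⟩)
          h (Finset.subset_insert _ _)
          (fun i hi => (hmeet i hi).1.mono
            (inter_subset_left.trans (inter_subset_inter (hY m) (hY i)))) hφ (by
            intro i hi
            rw [← Pool.Agent.TH705.RR.perp_norm (hsep.1 m (hws hm)) (hsep.1 i (hws (hhw hi)))]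
            exact (hmeet i hi).2.1)
      have h4 : R * P * φ ≤ Pool.Agent.Zk61.KP.Cc 3 * P * φ := by
        refine hcard.trans ?_
        rw [mul_comm δ]
        exact h3
      have h5 : 0 < P * φ := by positivity
      rw [hR] at h4
      nlinarith
  refine ⟨w, hws, ⟨Nat.cast_nonneg _, hdense, hcrit, ?_⟩, ?_⟩
  · intro u' hu' _ hcop
    by_contra hcon
    rw [not_lt] at hcon
    exact hsu u' (hu'.trans hw) ⟨hcop, hcon⟩
  · have hsepu : Separated δ e u :=
      ⟨fun i hi => hsep.1 i (hus hi), fun i hi i' hi' => hsep.2 i (hus hi) i' (hus hi')⟩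
    have huN : (u.card : ℝ) ≤ N := by
      refine le_trans ?_ hsN
      exact_mod_cast Finset.card_le_card hus
    have h1 := hrich δ hδ hδ1 M hM1 ι u a e hsepu N huN (by
      obtain ⟨c, hc⟩ := hu
      refine ⟨c, ?_, fun l hl => (hc l hl).1⟩
      have hsum : (u.card : ℝ) = ∑ l ∈ u.image c, ((u.filter fun i => c i = l).card : ℝ) := by
        rw [Finset.card_eq_sum_card_fiberwise (f := c) (t := u.image c)
          (fun i hi => Finset.mem_image_of_mem c hi)]
        push_cast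
        rfl
      have hLQ : ((u.image c).card : ℝ) * Q ≤ N := by
        refine le_trans ?_ huN
        rw [hsum, ← nsmul_eq_mul, ← Finset.sum_const]
        exact Finset.sum_le_sum fun l hl => (hc l hl).2
      have h3 : N = m * max 1 (δ * N) := by
        rcases le_total 1 (δ * N) with h | h
        · have h4 : 1 / δ ≤ N := by
            rw [div_le_iff₀ hδ]; linarith
          rw [hm, min_eq_right h4, max_eq_right h]
          field_simp
        · have h4 : N ≤ 1 / δ := by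
            rw [le_div_iff₀ hδ]; linarith
          rw [hm, min_eq_left h4, max_eq_left h, mul_one]
      rw [hM, div_mul_eq_mul_div, le_div_iff₀ hQ, ← h3]
      exact hLQ)
    set v : Finset ι := (s \ u) \ w with hv
    have hvs : v ⊆ s := Finset.sdiff_subset.trans Finset.sdiff_subset
    have hvN : (v.card : ℝ) ≤ N := by
      refine le_trans ?_ hsN
      exact_mod_cast Finset.card_le_card hvs
    have h2' : volume (level (t / 2) Y v) ≤
        ENNReal.ofReal (4 * B * δ ^ 2 * (N * L / t ^ (2 : ℝ))) := by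
      have h3 := Pool.Agent.Zk61.KR.level_thin Y hTm (by positivity : 0 < t / 4) v hwv
      have e1 : 2 * (t / 4) = t / 2 := by ring
      rw [e1, ← level_eq] at h3
      refine h3.trans ?_
      rw [← ENNReal.ofReal_natCast v.card, ← ENNReal.ofReal_mul (by positivity),
        ← ENNReal.ofReal_div_of_pos (by positivity)]
      apply ENNReal.ofReal_le_ofReal
      rw [Real.rpow_two]
      calc (v.card : ℝ) * (B * δ ^ 2 * (L / t)) / (t / 4)
          ≤ N * (B * δ ^ 2 * (L / t)) / (t / 4) := by gcongr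
        _ = _ := by field_simp
    have h1' := cheb hq0 (half_pos ht0) a e hY u h1
    have hsub : level t Y (s \ w) ⊆ level (t / 2) Y u ∪ level (t / 2) Y v := by
      intro x hx
      have hx1 : t ≤ ∑ i ∈ s \ w, (Y i).indicator (fun _ => (1 : ℝ)) x := hx
      by_contra hcon
      rw [Set.mem_union, not_or] at hcon
      have hxu : ∑ i ∈ u, (Y i).indicator (fun _ => (1 : ℝ)) x < t / 2 := not_le.1 hcon.1
      have hxv : ∑ i ∈ v, (Y i).indicator (fun _ => (1 : ℝ)) x < t / 2 := not_le.1 hcon.2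
      have huw : u ⊆ s \ w := by
        intro i hi
        rw [Finset.mem_sdiff]
        exact ⟨hus hi, fun hiw => (Finset.mem_sdiff.1 (hw hiw)).2 hi⟩
      have e1 : (s \ w) \ u = v := by
        ext i
        simp only [hv, Finset.mem_sdiff]
        tauto
      rw [← Finset.sum_sdiff huw, e1] at hx1
      linarith
    refine (measure_mono hsub).trans ((measure_union_le _ _).trans ((add_le_add h1' h2').trans ?_))
    rw [← ENNReal.ofReal_add (by positivity) (by positivity)]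
    apply ENNReal.ofReal_le_ofReal
    have e4 : q - 1 / 2 = 1 + ε := by rw [hq]; ring
    rw [hσq, e4]
    have h2q : (2 : ℝ) ^ q ≤ 4 := by
      have : (2 : ℝ) ^ q ≤ 2 ^ (2 : ℝ) :=
        Real.rpow_le_rpow_of_exponent_le (by norm_num) (by rw [hq]; linarith)
      refine this.trans (le_of_eq ?_)
      norm_num
    rw [Real.div_rpow ht0.le (by norm_num)]
    have hx1 : C1 * M ^ (1 / 2 + ε) * δ ^ 2 * N ^ (1 + ε) / (t ^ q / 2 ^ q) ≤
        4 * (C1 + B) * δ ^ 2 * (N ^ (1 + ε) * (M ^ (1 / 2 + ε) / t ^ q)) := by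
      calc C1 * M ^ (1 / 2 + ε) * δ ^ 2 * N ^ (1 + ε) / (t ^ q / 2 ^ q)
          = 2 ^ q * C1 * δ ^ 2 * (N ^ (1 + ε) * (M ^ (1 / 2 + ε) / t ^ q)) := by
            field_simp
        _ ≤ 4 * (C1 + B) * δ ^ 2 * (N ^ (1 + ε) * (M ^ (1 / 2 + ε) / t ^ q)) := by
            gcongr
            linarith
    have hx2 : 4 * B * δ ^ 2 * (N * L / t ^ (2 : ℝ)) ≤
        4 * (C1 + B) * δ ^ 2 * (N * L / t ^ (2 : ℝ)) := by
      gcongr
      linarith
    calc _ ≤ 4 * (C1 + B) * δ ^ 2 * (N ^ (1 + ε) * (M ^ (1 / 2 + ε) / t ^ q)) +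
          4 * (C1 + B) * δ ^ 2 * (N * L / t ^ (2 : ℝ)) := add_le_add hx1 hx2
      _ = _ := by ring

theorem level_split {ι : Type} [DecidableEq ι] {t t1 t2 : ℝ} (ht : 1 ≤ t)
    (h1 : t1 = max 1 (9 / 10 * t)) (h2 : t2 = max 1 (t / 10))
    (Y : ι → Set (EuclideanSpace ℝ (Fin 3))) {s w : Finset ι} (hw : w ⊆ s) :
    level t Y s ⊆ level t1 Y w ∪ level t2 Y (s \ w) := by
  intro x hx
  have hx1 : t ≤ ∑ i ∈ s, (Y i).indicator (fun _ => (1 : ℝ)) x := hx
  by_contra hcon
  rw [Set.mem_union, not_or] at hcon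
  have hxu : ∑ i ∈ w, (Y i).indicator (fun _ => (1 : ℝ)) x < t1 := not_le.1 hcon.1
  have hxv : ∑ i ∈ s \ w, (Y i).indicator (fun _ => (1 : ℝ)) x < t2 := not_le.1 hcon.2
  rw [← Finset.sum_sdiff hw] at hx1
  rw [sum_eq] at hxu
  rw [sum_eq] at hxv
  rw [sum_eq, sum_eq] at hx1
  set m1 : ℕ := Pool.Agent.Zk61.KP.cnt Y w x
  set m2 : ℕ := Pool.Agent.Zk61.KP.cnt Y (s \ w) x
  have hc1 : (m1 : ℝ) = 0 ∨ (m1 : ℝ) < 9 / 10 * t := by
    rw [h1, lt_max_iff] at hxu
    rcases hxu with h | h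
    · left
      have : m1 < 1 := by exact_mod_cast h
      have : m1 = 0 := by omega
      exact_mod_cast this
    · exact Or.inr h
  have hc2 : (m2 : ℝ) = 0 ∨ (m2 : ℝ) < t / 10 := by
    rw [h2, lt_max_iff] at hxv
    rcases hxv with h | h
    · left
      have : m2 < 1 := by exact_mod_cast h
      have : m2 = 0 := by omega
      exact_mod_cast this
    · exact Or.inr h
  rcases hc1 with h | h <;> rcases hc2 with h' | h' <;> linarith

theorem level_empty {ι : Type} {t : ℝ} (Y : ι → Set (EuclideanSpace ℝ (Fin 3))) {s : Finset ι}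
    (h : (s.card : ℝ) < t) : level t Y s = ∅ := by
  rw [Set.eq_empty_iff_forall_notMem]
  intro x hx
  have hx1 : t ≤ ∑ i ∈ s, (Y i).indicator (fun _ => (1 : ℝ)) x := hx
  rw [sum_eq] at hx1
  have h2 : (Pool.Agent.Zk61.KP.cnt Y s x : ℝ) ≤ s.card := by
    exact_mod_cast Pool.Agent.Zk61.KP.cnt_le_card _ s x
  linarith

theorem level_mono {ι : Type} {t t' : ℝ} {Y : ι → Set (EuclideanSpace ℝ (Fin 3))} {s w : Finset ι}
    (ht : t' ≤ t) (hw : w ⊆ s) : level t Y w ⊆ level t' Y s := by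
  intro x hx
  have hx1 : t ≤ ∑ i ∈ w, (Y i).indicator (fun _ => (1 : ℝ)) x := hx
  refine ht.trans (hx1.trans ?_)
  apply Finset.sum_le_sum_of_subset_of_nonneg hw
  intro i _ _
  exact Set.indicator_nonneg (fun _ _ => zero_le_one) _

/-- Arithmetic for the brushes. -/
theorem arith1 {q N t t2 : ℝ} (hN : 1 ≤ N) (ht : 0 < t) (ht2 : t / 20 ≤ t2) :
    N * (N ^ (q - 3 / 2) * t ^ (2 - q)) / t2 ^ (2 : ℝ) ≤
      400 * (N ^ (q - 1 / 2) / t ^ q) := by
  have hN0 : 0 < N := by linarith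
  have h1 : (t / 20) ^ (2 : ℝ) ≤ t2 ^ (2 : ℝ) :=
    Real.rpow_le_rpow (by positivity) ht2 (by norm_num)
  have h2 : (t / 20) ^ (2 : ℝ) = t ^ (2 : ℝ) / 400 := by
    rw [Real.div_rpow ht.le (by norm_num)]
    norm_num
  have h3 : N * N ^ (q - 3 / 2) = N ^ (q - 1 / 2) := by
    nth_rewrite 1 [← Real.rpow_one N]
    rw [← Real.rpow_add hN0]
    congr 1
    ring
  have h4 : t ^ (2 - q) / t ^ (2 : ℝ) = 1 / t ^ q := by
    rw [← Real.rpow_sub ht, one_div, ← Real.rpow_neg ht.le]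
    congr 1
    ring
  have ht3 : 0 < t ^ (2 : ℝ) := by positivity
  calc N * (N ^ (q - 3 / 2) * t ^ (2 - q)) / t2 ^ (2 : ℝ) ≤
        N * (N ^ (q - 3 / 2) * t ^ (2 - q)) / (t ^ (2 : ℝ) / 400) := by
        rw [← h2]
        gcongr
    _ = 400 * (N * N ^ (q - 3 / 2)) * (t ^ (2 - q) / t ^ (2 : ℝ)) := by
        field_simp
    _ = _ := by rw [h3, h4]; ring

/-- Arithmetic for the planes. -/
theorem arith2 {q ε N t t2 m : ℝ} (hε : 0 < ε) (hεq : ε ≤ q - 3 / 2) (hq2 : q ≤ 2)
    (ht : 1 ≤ t) (htN : t ≤ N) (hm : 0 < m) (ht2 : t / 20 ≤ t2) :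
    N ^ (1 + ε / 4) * ((m / (m * (t / N) ^ (2 * q - 3 - ε))) ^ (1 / 2 + ε / 4) /
      t2 ^ (3 / 2 + ε / 4)) ≤ 400 * (N ^ (q - 1 / 2) / t ^ q) := by
  have ht0 : 0 < t := by linarith
  have hN0 : 0 < N := by linarith
  have h1 : (t / 20) ^ (3 / 2 + ε / 4) ≤ t2 ^ (3 / 2 + ε / 4) :=
    Real.rpow_le_rpow (by positivity) ht2 (by positivity)
  have h2 : t ^ (3 / 2 + ε / 4) / 400 ≤ (t / 20) ^ (3 / 2 + ε / 4) := by
    rw [Real.div_rpow ht0.le (by norm_num)]
    have h3 : (20 : ℝ) ^ (3 / 2 + ε / 4) ≤ 400 := by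
      have : (20 : ℝ) ^ (3 / 2 + ε / 4) ≤ 20 ^ (2 : ℝ) :=
        Real.rpow_le_rpow_of_exponent_le (by norm_num) (by linarith)
      refine this.trans (le_of_eq (by norm_num))
    gcongr
  have h3 : m / (m * (t / N) ^ (2 * q - 3 - ε)) = (N / t) ^ (2 * q - 3 - ε) := by
    rw [Real.div_rpow ht0.le hN0.le, Real.div_rpow hN0.le ht0.le]
    field_simp
  have h4 : (m / (m * (t / N) ^ (2 * q - 3 - ε))) ^ (1 / 2 + ε / 4) ≤
      (N / t) ^ (q - 3 / 2 - ε / 4) := by
    have hNt : 1 ≤ N / t := by rw [one_le_div ht0]; exact htN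
    rw [h3, ← Real.rpow_mul (by positivity)]
    exact Real.rpow_le_rpow_of_exponent_le hNt (by nlinarith)
  have h7 : N ^ (1 + ε / 4) * (N / t) ^ (q - 3 / 2 - ε / 4) / t ^ (3 / 2 + ε / 4) =
      N ^ (q - 1 / 2) / t ^ q := by
    rw [Real.div_rpow hN0.le ht0.le, mul_div_assoc', div_div, ← Real.rpow_add hN0,
      ← Real.rpow_add ht0]
    congr 2 <;> ring
  have h8 : 0 < t ^ (3 / 2 + ε / 4) := by positivity
  calc N ^ (1 + ε / 4) * ((m / (m * (t / N) ^ (2 * q - 3 - ε))) ^ (1 / 2 + ε / 4) /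
        t2 ^ (3 / 2 + ε / 4))
      ≤ N ^ (1 + ε / 4) * ((N / t) ^ (q - 3 / 2 - ε / 4) / (t ^ (3 / 2 + ε / 4) / 400)) := by
        gcongr
        exact h2.trans h1
    _ = 400 * (N ^ (1 + ε / 4) * (N / t) ^ (q - 3 / 2 - ε / 4) / t ^ (3 / 2 + ε / 4)) := by
        field_simp
    _ = _ := by rw [h7]

/-- Change of the level. -/
theorem arith4 {q t t1 : ℝ} (hq : 0 < q) (hq2 : q ≤ 2) (ht : 0 < t) (ht1 : 9 / 10 * t ≤ t1) :
    1 / t1 ^ q ≤ 100 / 81 * (1 / t ^ q) := by
  have ht10 : 0 < t1 := by linarith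
  have ht1q : t ^ q / t1 ^ q ≤ 100 / 81 := by
    rw [← Real.div_rpow ht.le ht10.le]
    have h1 : t / t1 ≤ 10 / 9 := by
      rw [div_le_div_iff₀ ht10 (by norm_num)]
      linarith
    have h2 : (1 : ℝ) ≤ 10 / 9 := by norm_num
    calc (t / t1) ^ q ≤ (10 / 9 : ℝ) ^ q := Real.rpow_le_rpow (by positivity) h1 hq.le
      _ ≤ (10 / 9 : ℝ) ^ (2 : ℝ) := Real.rpow_le_rpow_of_exponent_le h2 hq2
      _ = 100 / 81 := by norm_num
  have htq0 : 0 < t ^ q := by positivity
  have ht1q0 : 0 < t1 ^ q := by positivity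
  calc 1 / t1 ^ q = t ^ q / t1 ^ q * (1 / t ^ q) := by field_simp
    _ ≤ 100 / 81 * (1 / t ^ q) := by gcongr

/-- The trivial bound. -/
theorem level_l1 {ι : Type} {t δ : ℝ} (ht : 0 < t) (hδ : 0 < δ)
    (a e : ι → EuclideanSpace ℝ (Fin 3)) {Y : ι → Set (EuclideanSpace ℝ (Fin 3))}
    (hY : ∀ i, Y i ⊆ tube δ (a i) (e i)) {s : Finset ι} (he : ∀ i ∈ s, ‖e i‖ = 1) :
    volume (level t Y s) ≤ ENNReal.ofReal (4 * δ ^ 2 * s.card / t) := by
  have h1 := cheb (q := 1) (B := s.card * (2 * δ) ^ 2) one_pos ht a e hY s (by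
    simp only [Real.rpow_one, ENNReal.ofReal_natCast]
    exact Pool.Agent.Zk61.KR.l1 s a e hδ he)
  refine h1.trans (ENNReal.ofReal_le_ofReal (le_of_eq ?_))
  rw [Real.rpow_one]
  ring

/-- The bound for few tubes. -/
theorem few_tubes {ι : Type} {q t δ N : ℝ} (ht : 0 < t) (hδ : 0 < δ)
    (a e : ι → EuclideanSpace ℝ (Fin 3)) {Y : ι → Set (EuclideanSpace ℝ (Fin 3))}
    (hY : ∀ i, Y i ⊆ tube δ (a i) (e i)) {s : Finset ι} (he : ∀ i ∈ s, ‖e i‖ = 1)
    (h : (s.card : ℝ) < N ^ (q - 1 / 2) / t ^ (q - 1)) :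
    volume (level t Y s) ≤ ENNReal.ofReal (4 * δ ^ 2 * (N ^ (q - 1 / 2) / t ^ q)) := by
  refine (level_l1 ht hδ a e hY he).trans (ENNReal.ofReal_le_ofReal ?_)
  have h3 : t ^ q = t ^ (q - 1) * t := by
    nth_rewrite 3 [← Real.rpow_one t]
    rw [← Real.rpow_add ht]
    congr 1
    ring
  rw [h3, ← div_div, ← mul_div_assoc]
  gcongr

open Classical in
/-- The decomposition at two levels `t1 ≤ t`, `t2 ≥ t1 / 10`. -/
theorem decomp {K q ε : ℝ} (hK : 4 ≤ K) (hq2 : q ≤ 2) (hε : 0 < ε) (hεq : ε ≤ q - 3 / 2) :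
    ∃ C : ℝ, 0 < C ∧ ∀ δ : ℝ, 0 < δ → δ < 1 →
      ∀ (ι : Type) (s : Finset ι) (a e : ι → EuclideanSpace ℝ (Fin 3)), Separated δ e s →
      ∀ M : ℝ, 1 ≤ M → ∀ u ⊆ s, (∃ c : ι → ℕ, ((u.image c).card : ℝ) ≤ M * max 1 (δ * s.card) ∧
        ∀ l ∈ u.image c, Coplanar K δ (fun i => tube δ (a i) (e i)) (u.filter fun i => c i = l)) →
      ∀ Y : ι → Set (EuclideanSpace ℝ (Fin 3)), Shading δ a e Y →
      ∀ t t2 : ℝ, 1 ≤ t → t ≤ s.card → 1 ≤ t2 → t2 ≤ t → t / 10 ≤ t2 →
        ∃ w ⊆ s \ u, Critical K δ 0 ((s.card : ℝ) ^ (q - 3 / 2) / t ^ (q - 1))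
            ((s.card : ℝ) ^ (q - 3 / 2 - ε) * t ^ (2 - q))
            (min (s.card : ℝ) (1 / δ) * (t / s.card) ^ (2 * q - 3 - ε)) (t / 80) a e Y w ∧
          volume (level t2 Y (s \ w)) ≤
            ENNReal.ofReal (C * M ^ (1 / 2 + ε) * δ ^ 2 * (s.card : ℝ) ^ (q - 1 / 2) / t ^ q) := by
  obtain ⟨C0, hC0, hmas⟩ := master (K := K) (ε := ε / 4) hK (by positivity) (by linarith)
  have hq0 : 0 < q := by linarith
  set τ : ℝ := (1 / 2 + ε) / q with hτ
  have hτq : τ * q = 1 / 2 + ε := div_mul_cancel₀ _ hq0.ne'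
  obtain ⟨C1, hC1, hrich⟩ := rich_int (q := q) (τ := τ) (K := K) (by linarith) hq2 (by
    rw [hτ, div_lt_div_iff₀ (by positivity) hq0]
    nlinarith) (by linarith)
  refine ⟨C1 * 400 + C0 * 800, by positivity, ?_⟩
  intro δ hδ hδ1 ι s a e hsep M hM u hus hu Y hYs t t2 ht htN ht2 ht2t htt2
  have hY : ∀ i, Y i ⊆ tube δ (a i) (e i) := fun i => (hYs i).2
  have hM0 : 0 < M := by linarith
  have ht0 : 0 < t := by linarith
  have ht20 : 0 < t2 := by linarith
  have hN1 : (1 : ℝ) ≤ s.card := ht.trans htN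
  have hN0 : (0 : ℝ) < s.card := by linarith
  have hm0 : 0 < min (s.card : ℝ) (1 / δ) := lt_min hN0 (by positivity)
  have hx0 : 0 < 2 * q - 3 - ε := by linarith
  have htN1 : t / s.card ≤ 1 := by rw [div_le_one hN0]; exact htN
  have htN0 : 0 < t / s.card := by positivity
  have hP1 : 1 ≤ (s.card : ℝ) ^ (q - 3 / 2 - ε) * t ^ (2 - q) := by
    have h1 := Real.one_le_rpow hN1 (by linarith : 0 ≤ q - 3 / 2 - ε)
    have h2 := Real.one_le_rpow ht (by linarith : 0 ≤ 2 - q)
    nlinarith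
  have hpx0 : 0 < (t / s.card) ^ (2 * q - 3 - ε) := by positivity
  have hpx1 : (t / s.card) ^ (2 * q - 3 - ε) ≤ 1 := Real.rpow_le_one htN0.le htN1 hx0.le
  have hQ0 : 0 < min (s.card : ℝ) (1 / δ) * (t / s.card) ^ (2 * q - 3 - ε) := by
    positivity
  have hQm : min (s.card : ℝ) (1 / δ) * (t / s.card) ^ (2 * q - 3 - ε) ≤
      min (s.card : ℝ) (1 / δ) := by nlinarith
  have hsep' : ∀ v ⊆ s, Separated δ e v := fun v hv =>
    ⟨fun i hi => hsep.1 i (hv hi), fun i hi i' hi' => hsep.2 i (hv hi) i' (hv hi')⟩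
  have hcard : ∀ v ⊆ s, (v.card : ℝ) ≤ s.card := fun v hv => by
    exact_mod_cast Finset.card_le_card hv
  have ht2h : 1 ≤ max 1 (t2 / 2) := le_max_left _ _
  have htt : t / 20 ≤ max 1 (t2 / 2) := (by linarith : t / 20 ≤ t2 / 2).trans (le_max_right _ _)
  have htm : max 1 (t2 / 2) ≤ t := max_le ht (by linarith)
  have htm0 : 0 < max 1 (t2 / 2) := by linarith
  obtain ⟨w, hw, hI, hlev⟩ := hmas δ hδ hδ1 ι (s \ u) a e (hsep' _ Finset.sdiff_subset) Y hYs
    s.card (hcard _ Finset.sdiff_subset) hN1 (max 1 (t2 / 2)) _ _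
    ((s.card : ℝ) ^ (q - 3 / 2) * t ^ (2 - q)) (t / 80)
    ((s.card : ℝ) ^ (q - 3 / 2) / t ^ (q - 1)) ht2h hP1 hQ0 hQm (by
      rw [mul_right_comm, ← Real.rpow_add hN0]
      gcongr
      linarith) (by linarith) (by
      rw [div_le_div_iff₀ (by positivity) htm0, mul_assoc]
      have h1 : t ^ (2 - q) * t ^ (q - 1) = t := by
        rw [← Real.rpow_add ht0]
        have : 2 - q + (q - 1) = 1 := by ring
        rw [this, Real.rpow_one]
      rw [h1]
      gcongr)
  refine ⟨w, hw, hI, ?_⟩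
  have hws : w ⊆ s := hw.trans Finset.sdiff_subset
  have h1 := hrich δ hδ hδ1 M hM ι u a e (hsep' u hus) s.card (hcard u hus) hu
  have h1' := cheb hq0 (half_pos ht20) a e hY u h1
  rw [hτq] at h1'
  -- the level set
  have hsub : level t2 Y (s \ w) ⊆
      level (t2 / 2) Y u ∪ level (max 1 (t2 / 2)) Y ((s \ u) \ w) := by
    intro x hx
    have hx1 : t2 ≤ ∑ i ∈ s \ w, (Y i).indicator (fun _ => (1 : ℝ)) x := hx
    by_contra hcon
    rw [Set.mem_union, not_or] at hcon
    have hxu : ∑ i ∈ u, (Y i).indicator (fun _ => (1 : ℝ)) x < t2 / 2 := not_le.1 hcon.1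
    have hxv : ∑ i ∈ (s \ u) \ w, (Y i).indicator (fun _ => (1 : ℝ)) x < max 1 (t2 / 2) :=
      not_le.1 hcon.2
    have huw : u ⊆ s \ w := by
      intro i hi
      rw [Finset.mem_sdiff]
      exact ⟨hus hi, fun hiw => (Finset.mem_sdiff.1 (hw hiw)).2 hi⟩
    have e1 : (s \ w) \ u = (s \ u) \ w := by
      ext i
      simp only [Finset.mem_sdiff]
      tauto
    rw [← Finset.sum_sdiff huw, e1] at hx1
    rw [sum_eq] at hxv
    rw [sum_eq Y ((s \ u) \ w)] at hx1
    rw [lt_max_iff] at hxv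
    rcases hxv with h | h
    · have h2 : Pool.Agent.Zk61.KP.cnt Y ((s \ u) \ w) x < 1 := by exact_mod_cast h
      have h3 : Pool.Agent.Zk61.KP.cnt Y ((s \ u) \ w) x = 0 := by omega
      rw [h3] at hx1
      push_cast at hx1
      linarith
    · linarith
  refine (measure_mono hsub).trans ((measure_union_le _ _).trans
    ((add_le_add h1' hlev).trans ?_))
  have hMε : 1 ≤ M ^ (1 / 2 + ε) := Real.one_le_rpow hM (by positivity)
  have hMε' : M ^ (1 / 2 + ε / 4) ≤ M ^ (1 / 2 + ε) :=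
    Real.rpow_le_rpow_of_exponent_le hM (by linarith)
  rw [← ENNReal.ofReal_add (by positivity) (by positivity)]
  apply ENNReal.ofReal_le_ofReal
  have hB0 : 0 < (s.card : ℝ) ^ (q - 1 / 2) / t ^ q := by positivity
  -- first term
  have hT0 : C1 * M ^ (1 / 2 + ε) * δ ^ 2 * (s.card : ℝ) ^ (q - 1 / 2) / (t2 / 2) ^ q ≤
      C1 * 400 * (M ^ (1 / 2 + ε) * δ ^ 2 * ((s.card : ℝ) ^ (q - 1 / 2) / t ^ q)) := by
    have h2 : (t / 20) ^ q ≤ (t2 / 2) ^ q :=
      Real.rpow_le_rpow (by positivity) (by linarith) hq0.le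
    have h3 : t ^ q / 400 ≤ (t / 20) ^ q := by
      rw [Real.div_rpow ht0.le (by norm_num)]
      have h4 : (20 : ℝ) ^ q ≤ 400 := by
        have : (20 : ℝ) ^ q ≤ 20 ^ (2 : ℝ) :=
          Real.rpow_le_rpow_of_exponent_le (by norm_num) hq2
        refine this.trans (le_of_eq (by norm_num))
      gcongr
    have htq : 0 < t ^ q := by positivity
    calc C1 * M ^ (1 / 2 + ε) * δ ^ 2 * (s.card : ℝ) ^ (q - 1 / 2) / (t2 / 2) ^ q
        ≤ C1 * M ^ (1 / 2 + ε) * δ ^ 2 * (s.card : ℝ) ^ (q - 1 / 2) / (t ^ q / 400) := by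
          gcongr
          exact h3.trans h2
      _ = _ := by field_simp
  have hT1 := arith1 (q := q) hN1 ht0 htt
  have hT2 := arith2 hε hεq hq2 ht htN hm0 htt
  have hT3 : C0 * δ ^ 2 *
      ((s.card : ℝ) * ((s.card : ℝ) ^ (q - 3 / 2) * t ^ (2 - q)) / (max 1 (t2 / 2)) ^ (2 : ℝ) +
        (s.card : ℝ) ^ (1 + ε / 4) * ((min (s.card : ℝ) (1 / δ) / (min (s.card : ℝ) (1 / δ) *
          (t / s.card) ^ (2 * q - 3 - ε))) ^ (1 / 2 + ε / 4) /
          (max 1 (t2 / 2)) ^ (3 / 2 + ε / 4))) ≤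
      C0 * 800 * (M ^ (1 / 2 + ε) * δ ^ 2 * ((s.card : ℝ) ^ (q - 1 / 2) / t ^ q)) := by
    rw [mul_add]
    have h3 := mul_le_mul_of_nonneg_left hT1 (by positivity : 0 ≤ C0 * δ ^ 2)
    have h4 := mul_le_mul_of_nonneg_left hT2 (by positivity : 0 ≤ C0 * δ ^ 2)
    refine (add_le_add h3 h4).trans ?_
    have h5 : 0 < C0 * δ ^ 2 * ((s.card : ℝ) ^ (q - 1 / 2) / t ^ q) := by positivity
    nlinarith
  refine (add_le_add hT0 hT3).trans (le_of_eq ?_)
  ring

/-- From the weak inequality to the strong one with a larger exponent. -/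
theorem strong_of_weak {ι : Type} {q q' B δ : ℝ} (hq : 0 < q) (hqq : q < q') (hB : 0 ≤ B)
    (hδ : 0 < δ) (a e : ι → EuclideanSpace ℝ (Fin 3)) (s : Finset ι)
    (h : ∀ t : ℝ, 1 ≤ t → t ≤ s.card → volume (level t (fun i => tube δ (a i) (e i)) s) ≤
      ENNReal.ofReal (B * δ ^ 2 * (s.card : ℝ) ^ (q - 1 / 2) / t ^ q)) :
    TubeIneq q' ((q' * B / (q' - q)) ^ (1 / q')) s.card δ a e s := by
  have hq' : 0 < q' := hq.trans hqq
  have hγ : 0 < q' - q := by linarith
  rcases s.eq_empty_or_nonempty with hs | hs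
  · subst hs
    unfold TubeIneq
    simp
  have hN1 : (1 : ℝ) ≤ s.card := by exact_mod_cast hs.card_pos
  have hN0 : (0 : ℝ) < s.card := by linarith
  have h1 := Pool.Agent.Zk61.KP.strong (n := 3) (q := q') (γ := q' - q)
    (A := B * δ ^ 2 * (s.card : ℝ) ^ (q - 1 / 2)) (N := s.card)
    (Pool.Agent.Zk61.KP.measurable_cnt (fun i => Pool.Agent.Zk61.KP.tube δ (a i) (e i))
      (fun i => Pool.Agent.Zk61.KP.measurableSet_tube δ (a i) (e i)) s)
    (fun x => Nat.cast_nonneg _) hN0.le hq' hγ (by positivity)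
    (fun x => by exact_mod_cast Pool.Agent.Zk61.KP.cnt_le_card _ s x) (by
      intro t ht htN
      have hset : ∀ r : ℝ, {x | r ≤ (Pool.Agent.Zk61.KP.cnt
          (fun i => Pool.Agent.Zk61.KP.tube δ (a i) (e i)) s x : ℝ)} =
            level r (fun i => tube δ (a i) (e i)) s := by
        intro r
        rw [level_eq]
        rfl
      have e1 : q' - q - q' = -q := by ring
      rw [e1, Real.rpow_neg ht.le, ← div_eq_mul_inv]
      rcases le_or_gt 1 t with h2 | h2
      · rw [hset]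
        exact h t h2 htN
      · have h3 : {x | t ≤ (Pool.Agent.Zk61.KP.cnt
            (fun i => Pool.Agent.Zk61.KP.tube δ (a i) (e i)) s x : ℝ)} ⊆
              level 1 (fun i => tube δ (a i) (e i)) s := by
          rw [← hset 1]
          intro x hx
          have hx1 : t ≤ (Pool.Agent.Zk61.KP.cnt
            (fun i => Pool.Agent.Zk61.KP.tube δ (a i) (e i)) s x : ℝ) := hx
          have hx2 : (0 : ℝ) < (Pool.Agent.Zk61.KP.cnt
            (fun i => Pool.Agent.Zk61.KP.tube δ (a i) (e i)) s x : ℝ) := by linarith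
          have hx3 : 0 < Pool.Agent.Zk61.KP.cnt
            (fun i => Pool.Agent.Zk61.KP.tube δ (a i) (e i)) s x := by exact_mod_cast hx2
          show (1 : ℝ) ≤ _
          exact_mod_cast hx3
        refine (measure_mono h3).trans ((h 1 le_rfl hN1).trans (ENNReal.ofReal_le_ofReal ?_))
        rw [Real.one_rpow, div_one]
        have h4 : t ^ q ≤ 1 := Real.rpow_le_one ht.le h2.le hq.le
        rw [le_div_iff₀ (by positivity)]
        exact mul_le_of_le_one_right (by positivity) h4)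
  apply ineq_of_lint hq' (by positivity) hN0.le hδ a e s
  refine h1.trans (ENNReal.ofReal_le_ofReal (le_of_eq ?_))
  have h2 : (s.card : ℝ) ^ (q - 1 / 2) * (s.card : ℝ) ^ (q' - q) =
      (s.card : ℝ) ^ (q' - 1 / 2) := by
    rw [← Real.rpow_add hN0]
    congr 1
    ring
  rw [← h2]
  field_simp

/-- Dyadic sum: from the points of multiplicity between `t` and `4 t` to the level set. -/
theorem dyadic {ι : Type} {q B δ : ℝ} (hq : 1 ≤ q) (hB : 0 ≤ B)
    (a e : ι → EuclideanSpace ℝ (Fin 3)) (s : Finset ι)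
    (h : ∀ t : ℝ, 1 ≤ t → t ≤ s.card → volume (level t (fun i => tube δ (a i) (e i)) s \
      level (2 * t) (fun i => tube δ (a i) (e i)) s) ≤ ENNReal.ofReal (B / t ^ q)) (k : ℕ) :
    ∀ t : ℝ, 1 ≤ t → (s.card : ℝ) < 2 ^ k * t →
      volume (level t (fun i => tube δ (a i) (e i)) s) ≤ ENNReal.ofReal (2 * B / t ^ q) := by
  induction k with
  | zero =>
    intro t ht hk
    rw [pow_zero, one_mul] at hk
    rw [level_empty _ hk, measure_empty]
    exact zero_le
  | succ k ih =>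
    intro t ht hk
    have ht0 : 0 < t := by linarith
    rcases lt_or_ge (s.card : ℝ) t with hlt | hge
    · rw [level_empty _ hlt, measure_empty]
      exact zero_le
    have h1 := h t ht hge
    have h2 := ih (2 * t) (by linarith) (by
      refine hk.trans_le (le_of_eq ?_)
      rw [pow_succ]
      ring)
    have h3 : level t (fun i => tube δ (a i) (e i)) s ⊆
        (level t (fun i => tube δ (a i) (e i)) s \ level (2 * t) (fun i => tube δ (a i) (e i)) s) ∪
        level (2 * t) (fun i => tube δ (a i) (e i)) s := by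
      intro x hx
      by_cases hx2 : x ∈ level (2 * t) (fun i => tube δ (a i) (e i)) s
      · exact Or.inr hx2
      · exact Or.inl ⟨hx, hx2⟩
    refine (measure_mono h3).trans ((measure_union_le _ _).trans ((add_le_add h1 h2).trans ?_))
    have htq : 0 < t ^ q := by positivity
    rw [← ENNReal.ofReal_add (by positivity) (by positivity)]
    apply ENNReal.ofReal_le_ofReal
    have h4 : 2 * t ^ q ≤ (2 * t) ^ q := by
      rw [Real.mul_rpow (by norm_num) ht0.le]
      have h5 : (2 : ℝ) ^ (1 : ℝ) ≤ 2 ^ q :=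
        Real.rpow_le_rpow_of_exponent_le (by norm_num) hq
      rw [Real.rpow_one] at h5
      gcongr
    have h5 : 2 * B / (2 * t) ^ q ≤ B / t ^ q := by
      calc 2 * B / (2 * t) ^ q ≤ 2 * B / (2 * t ^ q) := by gcongr
        _ = B / t ^ q := by field_simp
    calc B / t ^ q + 2 * B / (2 * t) ^ q ≤ B / t ^ q + B / t ^ q := by gcongr
      _ = 2 * B / t ^ q := by ring

theorem cut_shading {ι : Type} (t δ : ℝ) (a e : ι → EuclideanSpace ℝ (Fin 3)) (s : Finset ι) :
    Shading δ a e (cut t δ a e s) := by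
  intro i
  refine ⟨?_, sdiff_subset⟩
  refine (Pool.Agent.Zk61.KP.measurableSet_tube δ (a i) (e i)).diff ?_
  rw [level_eq]
  exact measurableSet_le measurable_const (Pool.Agent.Zk61.KP.measurable_cnt _
    (fun j => Pool.Agent.Zk61.KP.measurableSet_tube δ (a j) (e j)) s)

/-- The points of multiplicity between `t` and `2 t` lie in the level set of the cut tubes. -/
theorem sub_cut {ι : Type} {t t1 δ : ℝ} (ht : 2 * t ≤ 4 * t1)
    (a e : ι → EuclideanSpace ℝ (Fin 3)) (s : Finset ι) :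
    level t (fun i => tube δ (a i) (e i)) s \ level (2 * t) (fun i => tube δ (a i) (e i)) s ⊆
      level t (cut t1 δ a e s) s := by
  rintro x ⟨hx, hx2⟩
  have hx1 : t ≤ ∑ i ∈ s, (tube δ (a i) (e i)).indicator (fun _ => (1 : ℝ)) x := hx
  have hx3 : x ∉ level (4 * t1) (fun i => tube δ (a i) (e i)) s := by
    intro h
    exact hx2 (level_mono ht (Finset.Subset.refl _) h)
  show t ≤ ∑ i ∈ s, (cut t1 δ a e s i).indicator (fun _ => (1 : ℝ)) x
  refine hx1.trans (le_of_eq ?_)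
  apply Finset.sum_congr rfl
  intro i _
  by_cases hi : x ∈ tube δ (a i) (e i)
  · rw [Set.indicator_of_mem hi, Set.indicator_of_mem]
    exact ⟨hi, hx3⟩
  · rw [Set.indicator_of_notMem hi, Set.indicator_of_notMem]
    exact fun h => hi h.1

open Classical in
/-- The criterion. -/
theorem criterion {K q ε q' : ℝ} (hK : 4 ≤ K) (hq2 : q ≤ 2) (hε : 0 < ε) (hεq : ε ≤ q - 3 / 2)
    (hqq : q < q') :
    ∃ C : ℝ, 0 < C ∧ ∀ δ : ℝ, 0 < δ → δ < 1 →
      ∀ (ι : Type) (s : Finset ι) (a e : ι → EuclideanSpace ℝ (Fin 3)), Separated δ e s →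
      ∀ M : ℝ, 1 ≤ M → ∀ u ⊆ s, (∃ c : ι → ℕ, ((u.image c).card : ℝ) ≤ M * max 1 (δ * s.card) ∧
        ∀ l ∈ u.image c, Coplanar K δ (fun i => tube δ (a i) (e i)) (u.filter fun i => c i = l)) →
      ∀ A : ℝ, 0 ≤ A →
        (∀ w ⊆ s \ u, ∀ t : ℝ, 1 ≤ t → t ≤ s.card →
          (s.card : ℝ) ^ (q - 3 / 2 - ε) ≤ t ^ (q - 1) →
          Critical K δ ((s.card : ℝ) ^ (q - 1 / 2) / t ^ (q - 1))
            ((s.card : ℝ) ^ (q - 3 / 2) / t ^ (q - 1))
            ((s.card : ℝ) ^ (q - 3 / 2 - ε) * t ^ (2 - q))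
            (min (s.card : ℝ) (1 / δ) * (t / s.card) ^ (2 * q - 3 - ε)) (t / 80) a e
            (cut t δ a e s) w →
          volume (level t (cut t δ a e s) w) ≤
            ENNReal.ofReal (A * δ ^ 2 * (s.card : ℝ) ^ (q - 1 / 2) / t ^ q)) →
        TubeIneq q' (C * (A + M ^ (1 / 2 + ε)) ^ (1 / q')) s.card δ a e s := by
  obtain ⟨C0, hC0, hdec⟩ := decomp (K := K) hK hq2 hε hεq
  have hq0 : 0 < q := by linarith
  have hq'0 : 0 < q' := by linarith
  have hγ : 0 < q' - q := by linarith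
  refine ⟨(q' * (2 * (2 * C0 + 10)) / (q' - q)) ^ (1 / q'), by positivity, ?_⟩
  intro δ hδ hδ1 ι s a e hsep M hM u hus hu A hA hyp
  have hM0 : 0 < M := by linarith
  have hMε : 1 ≤ M ^ (1 / 2 + ε) := Real.one_le_rpow hM (by positivity)
  have hsep' : ∀ v ⊆ s, Separated δ e v := fun v hv =>
    ⟨fun i hi => hsep.1 i (hv hi), fun i hi i' hi' => hsep.2 i (hv hi) i' (hv hi')⟩
  have hpiece : ∀ t : ℝ, 1 ≤ t → t ≤ s.card → volume (level t (fun i => tube δ (a i) (e i)) s \
      level (2 * t) (fun i => tube δ (a i) (e i)) s) ≤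
      ENNReal.ofReal ((2 * C0 + 10) * (A + M ^ (1 / 2 + ε)) * δ ^ 2 *
        (s.card : ℝ) ^ (q - 1 / 2) / t ^ q) := by
    intro t ht htN
    have ht0 : 0 < t := by linarith
    have hN1 : (1 : ℝ) ≤ s.card := ht.trans htN
    have hN0 : (0 : ℝ) < s.card := by linarith
    have ht1a : 1 ≤ max 1 (9 / 10 * t) := le_max_left _ _
    have ht1b : 9 / 10 * t ≤ max 1 (9 / 10 * t) := le_max_right _ _
    have ht1c : max 1 (9 / 10 * t) ≤ t := max_le ht (by linarith)
    have ht2a : 1 ≤ max 1 (t / 10) := le_max_left _ _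
    have ht2b : t / 10 ≤ max 1 (t / 10) := le_max_right _ _
    have ht10 : 0 < max 1 (9 / 10 * t) := by linarith
    have hch := arith4 hq0 hq2 ht0 ht1b
    have hYs := cut_shading (max 1 (9 / 10 * t)) δ a e s
    have hY : ∀ i, cut (max 1 (9 / 10 * t)) δ a e s i ⊆ tube δ (a i) (e i) := fun i => (hYs i).2
    obtain ⟨w, hw, hI, hlev⟩ := hdec δ hδ hδ1 ι s a e hsep M hM u hus hu _ hYs
      (max 1 (9 / 10 * t))
      (max 1 (t / 10)) ht1a (ht1c.trans htN) ht2a
      (max_le ht1a ((by linarith : t / 10 ≤ 9 / 10 * t).trans ht1b)) (le_trans (by linarith) ht2b)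
    have hws : w ⊆ s := hw.trans Finset.sdiff_subset
    have hwN : (w.card : ℝ) ≤ s.card := by exact_mod_cast Finset.card_le_card hws
    have hmain : volume (level (max 1 (9 / 10 * t)) (cut (max 1 (9 / 10 * t)) δ a e s) w) ≤
        ENNReal.ofReal ((A + 4) * δ ^ 2 * (s.card : ℝ) ^ (q - 1 / 2) *
          (1 / (max 1 (9 / 10 * t)) ^ q)) := by
      rcases lt_or_ge ((max 1 (9 / 10 * t)) ^ (q - 1)) ((s.card : ℝ) ^ (q - 3 / 2 - ε)) with
        hsmall | hlarge
      · have h1 := level_l1 (t := max 1 (9 / 10 * t)) (δ := δ) ht10 hδ a e hY (hsep' w hws).1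
        refine h1.trans (ENNReal.ofReal_le_ofReal ?_)
        rw [mul_one_div, div_le_div_iff₀ ht10 (by positivity)]
        have h3 : (max 1 (9 / 10 * t)) ^ q = (max 1 (9 / 10 * t)) ^ (q - 1) *
            max 1 (9 / 10 * t) := by
          nth_rewrite 3 [← Real.rpow_one (max 1 (9 / 10 * t))]
          rw [← Real.rpow_add ht10]
          congr 1
          ring
        have h4 : (s.card : ℝ) * (s.card : ℝ) ^ (q - 3 / 2 - ε) ≤
            (s.card : ℝ) ^ (q - 1 / 2) := by
          nth_rewrite 1 [← Real.rpow_one (s.card : ℝ)]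
          rw [← Real.rpow_add hN0]
          exact Real.rpow_le_rpow_of_exponent_le hN1 (by linarith)
        calc 4 * δ ^ 2 * w.card * (max 1 (9 / 10 * t)) ^ q
            = 4 * δ ^ 2 * (w.card * (max 1 (9 / 10 * t)) ^ (q - 1)) * max 1 (9 / 10 * t) := by
              rw [h3]; ring
          _ ≤ 4 * δ ^ 2 * (s.card * (s.card : ℝ) ^ (q - 3 / 2 - ε)) * max 1 (9 / 10 * t) := by
              gcongr
          _ ≤ (A + 4) * δ ^ 2 * (s.card : ℝ) ^ (q - 1 / 2) * max 1 (9 / 10 * t) := by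
              gcongr
              linarith
      · rcases le_or_gt ((s.card : ℝ) ^ (q - 1 / 2) / (max 1 (9 / 10 * t)) ^ (q - 1)) w.card with
          hbig | hfew
        · refine (hyp w hw _ ht1a (ht1c.trans htN) hlarge ⟨hbig, hI.2⟩).trans
            (ENNReal.ofReal_le_ofReal ?_)
          rw [mul_one_div]
          gcongr
          linarith
        · refine (few_tubes ht10 hδ a e hY (hsep' w hws).1 hfew).trans (ENNReal.ofReal_le_ofReal ?_)
          rw [mul_one_div, mul_div_assoc]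
          gcongr
          linarith
    refine (measure_mono ((sub_cut (by linarith) a e s).trans
      (level_split ht rfl rfl _ hws))).trans ((measure_union_le _ _).trans
      ((add_le_add hmain hlev).trans ?_))
    rw [← ENNReal.ofReal_add (by positivity) (by positivity)]
    apply ENNReal.ofReal_le_ofReal
    have h5 : C0 * M ^ (1 / 2 + ε) * δ ^ 2 * (s.card : ℝ) ^ (q - 1 / 2) /
        (max 1 (9 / 10 * t)) ^ q = C0 * M ^ (1 / 2 + ε) * δ ^ 2 * (s.card : ℝ) ^ (q - 1 / 2) *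
        (1 / (max 1 (9 / 10 * t)) ^ q) := by ring
    rw [h5]
    have h6 : (A + 4) * δ ^ 2 * (s.card : ℝ) ^ (q - 1 / 2) * (1 / (max 1 (9 / 10 * t)) ^ q) +
        C0 * M ^ (1 / 2 + ε) * δ ^ 2 * (s.card : ℝ) ^ (q - 1 / 2) *
          (1 / (max 1 (9 / 10 * t)) ^ q) =
        (A + 4 + C0 * M ^ (1 / 2 + ε)) * (δ ^ 2 * (s.card : ℝ) ^ (q - 1 / 2)) *
          (1 / (max 1 (9 / 10 * t)) ^ q) := by ring
    rw [h6]
    have h7 : 0 < M ^ (1 / 2 + ε) := by positivity
    have h8 : 100 / 81 * (A + 4 + C0 * M ^ (1 / 2 + ε)) ≤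
        (2 * C0 + 10) * (A + M ^ (1 / 2 + ε)) := by
      nlinarith [mul_nonneg hC0.le hA, mul_pos hC0 h7]
    calc (A + 4 + C0 * M ^ (1 / 2 + ε)) * (δ ^ 2 * (s.card : ℝ) ^ (q - 1 / 2)) *
          (1 / (max 1 (9 / 10 * t)) ^ q)
        ≤ (A + 4 + C0 * M ^ (1 / 2 + ε)) * (δ ^ 2 * (s.card : ℝ) ^ (q - 1 / 2)) *
          (100 / 81 * (1 / t ^ q)) := by gcongr
      _ = (100 / 81 * (A + 4 + C0 * M ^ (1 / 2 + ε))) * (δ ^ 2 * (s.card : ℝ) ^ (q - 1 / 2) *
          (1 / t ^ q)) := by ring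
      _ ≤ ((2 * C0 + 10) * (A + M ^ (1 / 2 + ε))) * (δ ^ 2 * (s.card : ℝ) ^ (q - 1 / 2) *
          (1 / t ^ q)) := mul_le_mul_of_nonneg_right h8 (by positivity)
      _ = _ := by ring
  have hweak : ∀ t : ℝ, 1 ≤ t → t ≤ s.card →
      volume (level t (fun i => tube δ (a i) (e i)) s) ≤
      ENNReal.ofReal (2 * ((2 * C0 + 10) * (A + M ^ (1 / 2 + ε))) * δ ^ 2 *
        (s.card : ℝ) ^ (q - 1 / 2) / t ^ q) := by
    intro t ht _
    have h1 := dyadic (q := q) (B := (2 * C0 + 10) * (A + M ^ (1 / 2 + ε)) * δ ^ 2 *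
      (s.card : ℝ) ^ (q - 1 / 2)) (by linarith) (by positivity) a e s hpiece s.card t ht (by
        have h2 : (s.card : ℝ) < 2 ^ s.card := by exact_mod_cast Nat.lt_two_pow_self
        have h3 : (0 : ℝ) < 2 ^ s.card := by positivity
        nlinarith)
    refine h1.trans (ENNReal.ofReal_le_ofReal (le_of_eq ?_))
    ring
  have h1 := strong_of_weak hq0 hqq
    (by positivity : 0 ≤ 2 * ((2 * C0 + 10) * (A + M ^ (1 / 2 + ε)))) hδ a e s hweak
  have e1 : (q' * (2 * ((2 * C0 + 10) * (A + M ^ (1 / 2 + ε)))) / (q' - q)) ^ (1 / q') =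
      (q' * (2 * (2 * C0 + 10)) / (q' - q)) ^ (1 / q') * (A + M ^ (1 / 2 + ε)) ^ (1 / q') := by
    rw [← Real.mul_rpow (by positivity) (by positivity)]
    congr 1
    ring
  rw [e1] at h1
  exact h1

/-- **Planar brushes in the tube inequality in `ℝ³`.** -/
theorem result (K q ε q' : ℝ) (hK : 4 ≤ K) (hq2 : q ≤ 2) (hε : 0 < ε) (hεq : ε ≤ q - 3 / 2)
    (hqq : q < q') :
    ∃ C : ℝ, 0 < C ∧ ∀ δ : ℝ, 0 < δ → δ < 1 → ∀ (ι : Type) [DecidableEq ι] (s : Finset ι)
      (a e : ι → EuclideanSpace ℝ (Fin 3)), Separated δ e s →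
      -- all families and shadings: a critical subfamily contains the whole obstruction
      (∀ Y : ι → Set (EuclideanSpace ℝ (Fin 3)), Shading δ a e Y →
        ∀ t : ℝ, 1 ≤ t → t ≤ s.card → ∃ w ⊆ s,
        (w = ∅ ∨ Critical K δ ((s.card : ℝ) ^ (q - 1 / 2) / t ^ (q - 1))
            ((s.card : ℝ) ^ (q - 3 / 2) / t ^ (q - 1))
            ((s.card : ℝ) ^ (q - 3 / 2 - ε) * t ^ (2 - q))
            (min (s.card : ℝ) (1 / δ) * (t / s.card) ^ (2 * q - 3 - ε)) (t / 80) a e Y w) ∧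
        volume (level t Y (s \ w)) ≤
          ENNReal.ofReal (C * δ ^ 2 * (s.card : ℝ) ^ (q - 1 / 2) / t ^ q)) ∧
      -- the criterion
      (∀ A : ℝ, 0 ≤ A → (∀ w ⊆ s, ∀ t : ℝ, 1 ≤ t → t ≤ s.card →
          (s.card : ℝ) ^ (q - 3 / 2 - ε) ≤ t ^ (q - 1) →
          Critical K δ ((s.card : ℝ) ^ (q - 1 / 2) / t ^ (q - 1))
            ((s.card : ℝ) ^ (q - 3 / 2) / t ^ (q - 1))
            ((s.card : ℝ) ^ (q - 3 / 2 - ε) * t ^ (2 - q))
            (min (s.card : ℝ) (1 / δ) * (t / s.card) ^ (2 * q - 3 - ε)) (t / 80) a e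
            (cut t δ a e s) w →
          volume (level t (cut t δ a e s) w) ≤
            ENNReal.ofReal (A * δ ^ 2 * (s.card : ℝ) ^ (q - 1 / 2) / t ^ q)) →
        TubeIneq q' (C * (A + 1) ^ (1 / q')) s.card δ a e s) ∧
      -- no stems
      ((∀ m ∈ s, ¬ Stem K δ ((s.card : ℝ) ^ ((q - 3 / 2 - ε) / (q - 1))) a e
          (fun i => tube δ (a i) (e i)) (level ((s.card : ℝ) ^ ((q - 3 / 2 - ε) / (q - 1)) / 80)
            (fun i => tube δ (a i) (e i)) s) s m) →
        TubeIneq q' C s.card δ a e s) := by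
  obtain ⟨C1, hC1, h1⟩ := decomp (K := K) hK hq2 hε hεq
  obtain ⟨C2, hC2, h2⟩ := criterion (K := K) hK hq2 hε hεq hqq
  have hq1 : 1 ≤ q' := by linarith
  have hqm : 0 < q - 1 := by linarith
  refine ⟨C1 + C2 + 5, by positivity, ?_⟩
  intro δ hδ hδ1 ι inst s a e hsep
  obtain rfl : inst = (fun x y => Classical.propDecidable (x = y)) := Subsingleton.elim _ _
  classical
  have hu : ∃ c : ι → ℕ, (((∅ : Finset ι).image c).card : ℝ) ≤ 1 * max 1 (δ * s.card) ∧
      ∀ l ∈ (∅ : Finset ι).image c,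
        Coplanar K δ (fun i => tube δ (a i) (e i)) ((∅ : Finset ι).filter fun i => c i = l) := by
    refine ⟨fun _ => 0, ?_, ?_⟩
    · rw [Finset.image_empty, Finset.card_empty, Nat.cast_zero]
      positivity
    · intro l hl
      rw [Finset.image_empty] at hl
      exact absurd hl (Finset.notMem_empty l)
  have hcrit : ∀ A : ℝ, 0 ≤ A → (∀ w ⊆ s, ∀ t : ℝ, 1 ≤ t → t ≤ s.card →
          (s.card : ℝ) ^ (q - 3 / 2 - ε) ≤ t ^ (q - 1) →
          Critical K δ ((s.card : ℝ) ^ (q - 1 / 2) / t ^ (q - 1))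
            ((s.card : ℝ) ^ (q - 3 / 2) / t ^ (q - 1))
            ((s.card : ℝ) ^ (q - 3 / 2 - ε) * t ^ (2 - q))
            (min (s.card : ℝ) (1 / δ) * (t / s.card) ^ (2 * q - 3 - ε)) (t / 80) a e
            (cut t δ a e s) w →
          volume (level t (cut t δ a e s) w) ≤
            ENNReal.ofReal (A * δ ^ 2 * (s.card : ℝ) ^ (q - 1 / 2) / t ^ q)) →
        TubeIneq q' ((C1 + C2 + 5) * (A + 1) ^ (1 / q')) s.card δ a e s := by
    intro A hA hyp
    have h3 := h2 δ hδ hδ1 ι s a e hsep 1 le_rfl ∅ (Finset.empty_subset s) hu A hA (by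
      intro w hw
      exact hyp w (hw.trans Finset.sdiff_subset))
    rw [Real.one_rpow] at h3
    exact mono_ineq hq1 (by positivity) (by gcongr; linarith) (Nat.cast_nonneg _) le_rfl hδ h3
  refine ⟨?_, hcrit, ?_⟩
  · intro Y hYs t ht htN
    have hY : ∀ i, Y i ⊆ tube δ (a i) (e i) := fun i => (hYs i).2
    have ht0 : 0 < t := by linarith
    have hN1 : (1 : ℝ) ≤ s.card := ht.trans htN
    have hN0 : (0 : ℝ) < s.card := by linarith
    obtain ⟨w, hw, hI, h3⟩ := h1 δ hδ hδ1 ι s a e hsep 1 le_rfl ∅ (Finset.empty_subset s) hu Y hYs t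
      (max 1 (t / 10)) ht htN (le_max_left _ _) (max_le ht (by linarith)) (le_max_right _ _)
    rw [Real.one_rpow, mul_one] at h3
    have hws : w ⊆ s := hw.trans Finset.sdiff_subset
    rcases le_or_gt ((s.card : ℝ) ^ (q - 1 / 2) / t ^ (q - 1)) w.card with hbig | hfew
    · refine ⟨w, hws, Or.inr ⟨hbig, hI.2⟩, le_trans (measure_mono ?_)
        (h3.trans (ENNReal.ofReal_le_ofReal ?_))⟩
      · intro x hx
        have hx1 : t ≤ ∑ i ∈ s \ w, (Y i).indicator (fun _ => (1 : ℝ)) x := hx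
        have h4 : max 1 (t / 10) ≤ t := max_le ht (by linarith)
        exact h4.trans hx1
      · gcongr
        linarith
    · refine ⟨∅, Finset.empty_subset s, Or.inl rfl, ?_⟩
      rw [Finset.sdiff_empty]
      have ht1b : 9 / 10 * t ≤ max 1 (9 / 10 * t) := le_max_right _ _
      have ht10 : 0 < max 1 (9 / 10 * t) := by linarith
      have hl1 := level_l1 (t := max 1 (9 / 10 * t)) (δ := δ) ht10 hδ a e hY
        (fun i hi => hsep.1 i (hws hi))
      refine (measure_mono (level_split ht rfl rfl Y hws)).trans ((measure_union_le _ _).trans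
        ((add_le_add hl1 h3).trans ?_))
      rw [← ENNReal.ofReal_add (by positivity) (by positivity)]
      apply ENNReal.ofReal_le_ofReal
      have h4 : 4 * δ ^ 2 * w.card / max 1 (9 / 10 * t) ≤
          5 * δ ^ 2 * (s.card : ℝ) ^ (q - 1 / 2) / t ^ q := by
        have h5 : t ^ q = t ^ (q - 1) * t := by
          nth_rewrite 3 [← Real.rpow_one t]
          rw [← Real.rpow_add ht0]
          congr 1
          ring
        calc 4 * δ ^ 2 * w.card / max 1 (9 / 10 * t)
            ≤ 4 * δ ^ 2 * ((s.card : ℝ) ^ (q - 1 / 2) / t ^ (q - 1)) / (9 / 10 * t) := by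
              gcongr
          _ = 40 / 9 * (δ ^ 2 * (s.card : ℝ) ^ (q - 1 / 2) / (t ^ (q - 1) * t)) := by
              field_simp
              ring
          _ ≤ 5 * (δ ^ 2 * (s.card : ℝ) ^ (q - 1 / 2) / (t ^ (q - 1) * t)) := by
              gcongr
              norm_num
          _ = _ := by rw [h5]; ring
      refine (add_le_add h4 le_rfl).trans ?_
      have h6 : 0 < δ ^ 2 * (s.card : ℝ) ^ (q - 1 / 2) / t ^ q := by positivity
      calc 5 * δ ^ 2 * (s.card : ℝ) ^ (q - 1 / 2) / t ^ q +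
            C1 * δ ^ 2 * (s.card : ℝ) ^ (q - 1 / 2) / t ^ q
          = (5 + C1) * (δ ^ 2 * (s.card : ℝ) ^ (q - 1 / 2) / t ^ q) := by ring
        _ ≤ (C1 + C2 + 5) * (δ ^ 2 * (s.card : ℝ) ^ (q - 1 / 2) / t ^ q) :=
            mul_le_mul_of_nonneg_right (by linarith) h6.le
        _ = _ := by ring
  · intro hv
    have h3 := hcrit 0 le_rfl (by
      intro w hw t ht htN htq hI
      have hw0 : w = ∅ := by
        by_contra hne
        obtain ⟨m, hm⟩ := Finset.nonempty_iff_ne_empty.2 hne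
        obtain ⟨φ, hφ, hφ1, h, hhw, hcard, hmeet, v, hmv, hvh, hvP, hvC⟩ := hI.2.2.1 m hm
        have hcut : ∀ i, cut t δ a e s i ⊆ tube δ (a i) (e i) := fun i =>
          (cut_shading t δ a e s i).2
        have hN1 : (1 : ℝ) ≤ s.card := ht.trans htN
        have hN0 : (0 : ℝ) < s.card := by linarith
        have ht0 : 0 < t := by linarith
        have h6 : ((s.card : ℝ) ^ (q - 3 / 2 - ε)) ^ (1 / (q - 1)) ≤
            (t ^ (q - 1)) ^ (1 / (q - 1)) :=
          Real.rpow_le_rpow (by positivity) htq (by positivity)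
        rw [← Real.rpow_mul hN0.le, ← Real.rpow_mul ht0.le, mul_one_div_cancel hqm.ne',
          Real.rpow_one, mul_one_div] at h6
        have h5 : ((s.card : ℝ) ^ ((q - 3 / 2 - ε) / (q - 1))) ^ (2 - q) ≤ t ^ (2 - q) :=
          Real.rpow_le_rpow (by positivity) h6 (by linarith)
        have h7 : (s.card : ℝ) ^ ((q - 3 / 2 - ε) / (q - 1)) ≤
            (s.card : ℝ) ^ (q - 3 / 2 - ε) * t ^ (2 - q) := by
          refine le_trans (le_of_eq ?_) (mul_le_mul_of_nonneg_left h5 (by positivity))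
          rw [← Real.rpow_mul hN0.le, ← Real.rpow_add hN0]
          congr 1
          field_simp
          ring
        refine hv m (hw hm) ⟨φ, hφ, hφ1, h, hhw.trans hw, le_trans ?_ hcard, fun i hi =>
          ⟨(hmeet i hi).1.mono (inter_subset_inter (inter_subset_inter (hcut m) (hcut i))
            ((level_mono (by linarith) hw).trans (level_sub hcut s))), (hmeet i hi).2⟩, v, hmv, hvh, h7.trans hvP, hvC⟩
        have hφ0 : 0 < φ := hδ.trans_le hφ
        gcongr
      rw [hw0]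
      have ht0 : 0 < t := by linarith
      rw [level_empty _ (by rw [Finset.card_empty, Nat.cast_zero]; exact ht0), measure_empty]
      exact zero_le)
    rw [zero_add, Real.one_rpow, mul_one] at h3
    exact h3

end Pool.Agent.Results.MP_850839_an.PlanarBrushes
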