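import Pool.Agent.Zk22.Eps.Loss
import Pool.Agent.Zk22.Eps.Vol

/-!
# MP_850839: the inequality without loss, the usual weak form with a loss, and entropy

`n ≥ 3`, `d = n - 1`, `c ≥ 1`.  Four statements are equivalent:

1. the inequality of the problem holds for all `q > 1 + c / (n - 1)`, without loss in `δ`;
2. for every `ε > 0` there is `κ > 0` such that `|E| ≥ κ δ ^ ε t ^ (1 + d / c) (#T) ^ (1 / c) δ ^ d`
   for all `δ`, all families of `δ`-tubes with `δ`-separated orientations and all measurable sets `E`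
   which contain the part `t` of every tube (for `c = 1`: `|E| ≥ κ δ ^ ε t ^ n #T δ ^ (n - 1)`, the
   usual weak form of the Kakeya maximal conjecture);
3. for all `b > c`, (*) holds for all `N`, all families of lines and all laws with an error that
   depends on `n` and `b` only;
4. for all `b > c` and `ε > 0`, (*) holds with the error `ε log N + C (1 + S)` for the two-ends, broad
   laws with constant `S`.

A finite family of lines in `ℝ^n` is given at scale `1 / N` by positions `x ω ∈ ℝ^d` and slopes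
`v ω ∈ [0,1]^d`, one in every grid cube of side `1 / N` at most; at the height `j`, `0 ≤ j < N`, the
line `ω` is at `x ω + j v ω`.  Choose at random a line `ω` and a height `j` on it, with ANY joint law,
and let `P` be the unit grid cell (with its height) of the point obtained.  `H` is the Shannon
entropy, and (*) is the inequality

  `H(ω) ≤ b (H(P) - H(j | ω)) + d (log N - H(j | ω)) + error`.                       (*)

For `c = 1` the first statement is the question (for finite `q`).  A law is two-ends with constant `S`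
if the expectation over `ω` of the supremum over the heights `h` of the conditional expectation of
`log⁺ (N / max 1 |j - h|)` is at most `S`, and broad with constant `S` if the expectation of
`log⁺ (N / max 1 (N |v - v'|))` is at most `S` for two lines chosen independently through the random
point.
-/

set_option autoImplicit false

open MeasureTheory Finset
open scoped Classical

namespace Pool.Agent.Results.MP_850839_an.UsualWeakForm

/-- The `δ`-tube with centre `a` and direction `e` (a unit vector): the closed cylinder of length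
`1` and radius `δ` around the segment with centre `a` and direction `e`. -/
def tube {n : ℕ} (δ : ℝ) (a e : EuclideanSpace ℝ (Fin n)) : Set (EuclideanSpace ℝ (Fin n)) :=
  {y | |inner ℝ (y - a) e| ≤ 1 / 2 ∧ ‖(y - a) - (inner ℝ (y - a) e) • e‖ ≤ δ}

/-- The inequality of the problem in `ℝ^n` for the exponent `q`, without loss. -/
def TubeBound (n : ℕ) (q : ℝ) : Prop :=
  ∃ C : ℝ, 0 < C ∧ ∀ δ : ℝ, 0 < δ → δ < 1 → ∀ (ι : Type) [Fintype ι]
    (a e : ι → EuclideanSpace ℝ (Fin n)), (∀ i, ‖e i‖ = 1) →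
    (∀ i j, i ≠ j → δ ≤ ‖e i - e j‖) →
    eLpNorm (fun x => ∑ i, (tube δ (a i) (e i)).indicator (fun _ => (1 : ℝ)) x)
        (ENNReal.ofReal q) volume ≤
      ENNReal.ofReal (C * δ ^ (((n : ℝ) - 1) / q) *
        (Fintype.card ι : ℝ) ^ (1 - 1 / (q * ((n : ℝ) - 1))))

/-- The usual weak form, with a loss: every measurable set which contains the part `t` of every tube
of a family with separated orientations has measure at least
`κ δ ^ ε t ^ (1 + (n - 1) / c) (#T) ^ (1 / c) δ ^ (n - 1)`. -/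
def VolumeBound (n : ℕ) (c : ℝ) : Prop :=
  ∀ ε : ℝ, 0 < ε → ∃ κ : ℝ, 0 < κ ∧ ∀ δ : ℝ, 0 < δ → δ < 1 → ∀ (ι : Type) [Fintype ι]
    (a e : ι → EuclideanSpace ℝ (Fin n)), (∀ i, ‖e i‖ = 1) →
    (∀ i j, i ≠ j → δ ≤ ‖e i - e j‖) →
    ∀ (E : Set (EuclideanSpace ℝ (Fin n))) (t : ℝ), MeasurableSet E → 0 ≤ t →
      (∀ i, ENNReal.ofReal t * volume (tube δ (a i) (e i)) ≤ volume (E ∩ tube δ (a i) (e i))) →
      ENNReal.ofReal (κ * δ ^ ε * t ^ (1 + ((n : ℝ) - 1) / c) * (Fintype.card ι : ℝ) ^ (1 / c) *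
        δ ^ ((n : ℝ) - 1)) ≤ volume E

/-- Probability that `f` has the value `y`, under the law `p` on a finite set. -/
noncomputable def prob {Θ β : Type} [Fintype Θ] (p : Θ → ℝ) (f : Θ → β) (y : β) : ℝ :=
  ∑ z, if f z = y then p z else 0

/-- Shannon entropy (with natural logarithms) of `f` under the law `p`. -/
noncomputable def ent {Θ β : Type} [Fintype Θ] (p : Θ → ℝ) (f : Θ → β) : ℝ :=
  ∑ z, p z * -Real.log (prob p f (f z))

/-- The slopes lie in `[0,1]^d`, and every grid cube of side `1 / N` contains at most one of them. -/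
def Separated {Ω : Type} {d : ℕ} (N : ℕ) (v : Ω → Fin d → ℝ) : Prop :=
  (∀ ω i, 0 ≤ v ω i ∧ v ω i ≤ 1) ∧
    ∀ ω ω', (∀ i, ⌊(N : ℝ) * v ω i⌋ = ⌊(N : ℝ) * v ω' i⌋) → ω = ω'

/-- Height and unit cell of the point of the line `z.1` at the height `z.2`. -/
noncomputable def point {Ω : Type} {d N : ℕ} (x v : Ω → Fin d → ℝ) (z : Ω × Fin N) :
    Fin N × (Fin d → ℤ) :=
  (z.2, fun i => ⌊x z.1 i + (z.2 : ℝ) * v z.1 i⌋)

/-- Conditional entropy of the height given the line. -/
noncomputable def heightEnt {Ω : Type} [Fintype Ω] {N : ℕ} (p : Ω × Fin N → ℝ) : ℝ :=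
  ent p id - ent p Prod.fst

/-- The entropy inequality (*) with exponent `b` and error `E`. -/
def EntropyBound {Ω : Type} [Fintype Ω] {d N : ℕ} (x v : Ω → Fin d → ℝ) (p : Ω × Fin N → ℝ)
    (b E : ℝ) : Prop :=
  ent p Prod.fst ≤ b * (ent p (point x v) - heightEnt p) + d * (Real.log N - heightEnt p) + E

/-- The entropy inequality for all laws, with a constant error. -/
def AllLaws (d : ℕ) (b : ℝ) : Prop :=
  ∃ C : ℝ, ∀ (N : ℕ) (Ω : Type) [Fintype Ω] (x v : Ω → Fin d → ℝ), 1 ≤ N → Separated N v →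
    ∀ p : Ω × Fin N → ℝ, (∀ z, 0 ≤ p z) → ∑ z, p z = 1 → EntropyBound x v p b C

/-- Two-ends law: `s ω` bounds the part of `ω` in `E log⁺ (N / max 1 |j - h|)`, for all `h`. -/
def TwoEnds {Ω : Type} [Fintype Ω] {N : ℕ} (p : Ω × Fin N → ℝ) (S : ℝ) : Prop :=
  ∃ s : Ω → ℝ, (∀ (ω : Ω) (h : ℤ), ∑ j : Fin N, p (ω, j) *
    Real.log (max 1 ((N : ℝ) / max 1 |(((j : ℕ) : ℤ) : ℝ) - (h : ℝ)|)) ≤ s ω) ∧ ∑ ω, s ω ≤ S

/-- Broad law: two conditionally independent lines through the random point make an angle which is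
not small, on a logarithmic average. -/
def Broad {Ω : Type} [Fintype Ω] {d N : ℕ} (x v : Ω → Fin d → ℝ) (p : Ω × Fin N → ℝ) (S : ℝ) :
    Prop :=
  ∑ z : (Ω × Fin N) × (Ω × Fin N), (if point x v z.1 = point x v z.2 then
      p z.1 * p z.2 / prob p (point x v) (point x v z.1) else 0) *
    Real.log (max 1 ((N : ℝ) / max 1 ((N : ℝ) * ‖v z.1.1 - v z.2.1‖))) ≤ S

/-- The entropy inequality for two-ends, broad laws, with a small loss. -/
def TwoEndsBroadLaws (d : ℕ) (b : ℝ) : Prop :=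
  ∀ ε : ℝ, 0 < ε → ∃ C : ℝ, ∀ (N : ℕ) (Ω : Type) [Fintype Ω] (x v : Ω → Fin d → ℝ), 1 ≤ N →
    Separated N v → ∀ p : Ω × Fin N → ℝ, (∀ z, 0 ≤ p z) → ∑ z, p z = 1 →
    ∀ S : ℝ, TwoEnds p S → Broad x v p S →
      EntropyBound x v p b (ε * Real.log N + C * (1 + S))

/-- The two forms of the inequality for tubes. -/
theorem tubeBound_iff (d : ℕ) {q : ℝ} (hq : 0 < q) :
    TubeBound (d + 1) q ↔ Pool.Agent.Y244.WR.TubeQ d q := by
  have e1 : (((d + 1 : ℕ) : ℝ) - 1) = d := by push_cast; ring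
  have key : ∀ (δ : ℝ) (ι : Type) [Fintype ι] (a e : ι → EuclideanSpace ℝ (Fin (d + 1))),
      eLpNorm (fun x => ∑ i, (tube δ (a i) (e i)).indicator (fun _ => (1 : ℝ)) x)
        (ENNReal.ofReal q) volume =
      (∫⁻ x, (∑ i, (Pool.Agent.W46.KK.tube δ (a i) (e i)).indicator
        (fun _ => (1 : ENNReal)) x) ^ q) ^ (1 / q) := by
    intro δ ι _ a e
    rw [eLpNorm_eq_lintegral_rpow_enorm_toReal (by
      rw [ne_eq, ENNReal.ofReal_eq_zero, not_le]; exact hq) ENNReal.ofReal_ne_top,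
      ENNReal.toReal_ofReal hq.le]
    congr 1
    refine lintegral_congr fun x => ?_
    congr 1
    rw [Real.enorm_of_nonneg (Finset.sum_nonneg fun i _ =>
      Set.indicator_nonneg (fun _ _ => zero_le_one) _),
      ENNReal.ofReal_sum_of_nonneg fun i _ => Set.indicator_nonneg (fun _ _ => zero_le_one) _]
    refine Finset.sum_congr rfl fun i _ => ?_
    by_cases hx : x ∈ tube δ (a i) (e i)
    · have hx' : x ∈ Pool.Agent.W46.KK.tube δ (a i) (e i) := hx
      rw [Set.indicator_of_mem hx, Set.indicator_of_mem hx', ENNReal.ofReal_one]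
    · have hx' : x ∉ Pool.Agent.W46.KK.tube δ (a i) (e i) := hx
      rw [Set.indicator_of_notMem hx, Set.indicator_of_notMem hx', ENNReal.ofReal_zero]
  have hpow : ∀ (C δ m : ℝ), 0 < C → 0 < δ → 0 ≤ m →
      (C * δ ^ ((d : ℝ) / q) * m ^ (1 - 1 / (q * (d : ℝ)))) ^ q =
        C ^ q * δ ^ (d : ℝ) * m ^ (q - 1 / (d : ℝ)) := by
    intro C δ m hC hδ hm
    rw [Real.mul_rpow (by positivity) (by positivity), Real.mul_rpow hC.le (by positivity),
      ← Real.rpow_mul hδ.le, ← Real.rpow_mul hm]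
    congr 2
    · congr 1
      field_simp
    · rcases eq_or_ne (d : ℝ) 0 with h0 | h0
      · rw [h0]; simp
      · field_simp
  constructor
  · rintro ⟨C, hC, h⟩
    refine ⟨C ^ q, by positivity, ?_⟩
    intro δ hδ hδ1 ι _ a e he hsep
    have h1 := h δ hδ hδ1 ι a e he hsep
    rw [key, e1] at h1
    have h2 := ENNReal.rpow_le_rpow h1 hq.le
    rw [← ENNReal.rpow_mul, one_div_mul_cancel hq.ne', ENNReal.rpow_one,
      ENNReal.ofReal_rpow_of_nonneg (by positivity) hq.le, hpow C δ _ hC hδ (Nat.cast_nonneg _)] at h2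
    exact h2
  · rintro ⟨C, hC, h⟩
    refine ⟨C ^ (1 / q), by positivity, ?_⟩
    intro δ hδ hδ1 ι _ a e he hsep
    have h1 := h δ hδ hδ1 ι a e he hsep
    rw [key, e1]
    have h2 := ENNReal.rpow_le_rpow h1 (show 0 ≤ 1 / q by positivity)
    refine h2.trans (le_of_eq ?_)
    rw [ENNReal.ofReal_rpow_of_nonneg (by positivity) (by positivity)]
    congr 1
    have h3 := hpow (C ^ (1 / q)) δ (Fintype.card ι) (by positivity) hδ (Nat.cast_nonneg _)
    rw [← Real.rpow_mul hC.le, one_div_mul_cancel hq.ne', Real.rpow_one] at h3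
    rw [← h3, ← Real.rpow_mul (by positivity), mul_one_div_cancel hq.ne', Real.rpow_one]

theorem separated_iff {Ω : Type} {d N : ℕ} (hN : 1 ≤ N) (v : Ω → Fin d → ℝ) :
    Separated N v ↔ Pool.Agent.W46.HD.IsFam N v :=
  ⟨fun h => ⟨hN, fun ω i => (h.1 ω i).1, fun ω i => (h.1 ω i).2, h.2⟩,
    fun h => ⟨fun ω i => ⟨h.lo ω i, h.hi ω i⟩, h.inj⟩⟩

theorem entropyBound_iff {Ω : Type} [Fintype Ω] {d N : ℕ} (x v : Ω → Fin d → ℝ)
    (p : Ω × Fin N → ℝ) (b E : ℝ) : EntropyBound x v p b E ↔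
    Pool.Agent.W46.HD.aa p ≤ b * Pool.Agent.Zk22.gp x v p + d * Pool.Agent.W46.HD.lam p + E := by
  rw [Pool.Agent.Zk22.gp_eq]
  rfl

theorem broad_iff {Ω : Type} [Fintype Ω] {d N : ℕ} (x v : Ω → Fin d → ℝ) (p : Ω × Fin N → ℝ)
    (S : ℝ) : Broad x v p S ↔ Pool.Agent.Y254HK.ang x v p ≤ S := by
  unfold Broad Pool.Agent.Y254HK.ang
  have e : ∀ z : (Ω × Fin N) × (Ω × Fin N), (if point x v z.1 = point x v z.2 then
      p z.1 * p z.2 / prob p (point x v) (point x v z.1) else 0) *
    Real.log (max 1 ((N : ℝ) / max 1 ((N : ℝ) * ‖v z.1.1 - v z.2.1‖))) =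
    Pool.Agent.W904.AK.glue p p (Pool.Agent.W597.HD.ce x v) (Pool.Agent.W597.HD.ce x v) z *
      Pool.Agent.Y254HK.dz N v z.1.1 z.2.1 := by
    intro z
    unfold Pool.Agent.W904.AK.glue Pool.Agent.Y254HK.dz
    by_cases h : point x v z.1 = point x v z.2
    · have h' : Pool.Agent.W597.HD.ce x v z.1 = Pool.Agent.W597.HD.ce x v z.2 := h
      rw [if_pos h, if_pos h']
      rfl
    · have h' : ¬ Pool.Agent.W597.HD.ce x v z.1 = Pool.Agent.W597.HD.ce x v z.2 := h
      rw [if_neg h, if_neg h']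
  rw [Finset.sum_congr rfl fun z _ => e z]

/-- The volume bound from the inequality without loss. -/
theorem volumeBound_of {d : ℕ} (hd : 2 ≤ d) {c : ℝ} (hc : 1 ≤ c)
    (h : ∀ q : ℝ, 1 + c / (d : ℝ) < q → TubeBound (d + 1) q) : VolumeBound (d + 1) c := by
  have hdR : (2 : ℝ) ≤ d := by exact_mod_cast hd
  have hd0 : (0 : ℝ) < d := by linarith
  have e1 : (((d + 1 : ℕ) : ℝ) - 1) = d := by push_cast; ring
  have hc0 : 0 < c := by linarith
  have hp1 : 1 < 1 + c / (d : ℝ) := by
    have : 0 < c / (d : ℝ) := by positivity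
    linarith
  have hT : ∀ q : ℝ, 1 + c / (d : ℝ) < q → Pool.Agent.Y244.WR.TubeQ d q := fun q hq =>
    (tubeBound_iff d (by linarith)).1 (h q hq)
  intro ε hε
  obtain ⟨C, hC, hL⟩ := Pool.Agent.Zk22.Eps.lossy_of_lossless (d := d) (by omega) hp1 hT
    (ε := ε * c / d) (by positivity)
  obtain ⟨κ, hκ, hV⟩ := Pool.Agent.Zk22.Eps.vol_of_strong (d := d) (by omega) hc0
  refine ⟨κ * C ^ (-((d : ℝ) / c)), by positivity, ?_⟩
  intro δ hδ hδ1 ι _ a e he hsep E t hE ht hlow
  rw [e1]
  have hB : 0 < C * δ ^ (-(ε * c / d)) := by positivity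
  have h1 := hV δ (C * δ ^ (-(ε * c / d))) hδ hδ1 hB ι a e he (hL δ hδ hδ1 ι a e he hsep) E hE t ht
    hlow
  refine le_trans (le_of_eq ?_) h1
  congr 1
  rw [Real.mul_rpow hC.le (by positivity), ← Real.rpow_mul hδ.le, Real.rpow_natCast]
  have e2 : -(ε * c / (d : ℝ)) * -((d : ℝ) / c) = ε := by field_simp
  rw [e2]
  ring

/-- The entropy inequality from the volume bound. -/
theorem allX_of_volumeBound {d : ℕ} (hd : 2 ≤ d) {c : ℝ} (hc : 1 ≤ c)
    (h : VolumeBound (d + 1) c) {b : ℝ} (hb : c < b) : Pool.Agent.Zk22.AllX d b d := by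
  have hdR : (2 : ℝ) ≤ d := by exact_mod_cast hd
  have hd0 : (0 : ℝ) < d := by linarith
  have e1 : (((d + 1 : ℕ) : ℝ) - 1) = d := by push_cast; ring
  have hc0 : 0 < c := by linarith
  refine Pool.Agent.Zk22.Eps.allX_of_vol (by omega) hc ?_ hb
  intro ε hε
  obtain ⟨κ, hκ, hV⟩ := h ε hε
  obtain ⟨C1, hC1⟩ : ∃ C1 : ℝ, C1 = Pool.Agent.Y254.Cv (d + 1) * 2 := ⟨_, rfl⟩
  have hC10 : 0 < C1 := by
    rw [hC1]
    have := Pool.Agent.Y254.Cv_pos (d + 1)
    positivity
  refine ⟨κ * (1 / C1) ^ (1 + (d : ℝ) / c), by positivity, ?_⟩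
  intro δ hδ hδ1 ι _ a e he hsep E hE t ht hlow
  have h1 := hV δ hδ hδ1 ι a e he hsep E (t * (1 / C1)) hE (by positivity) (by
    intro i
    refine le_trans ?_ (hlow i)
    have hv := Pool.Agent.Y254.vol_tube (n := d + 1) (by omega) (a := a i) (he i) hδ hδ1
    rw [Nat.add_sub_cancel, ← hC1] at hv
    have hv' : volume (tube δ (a i) (e i)) ≤ ENNReal.ofReal (C1 * δ ^ d) := hv
    refine (mul_le_mul' le_rfl hv').trans (le_of_eq ?_)
    rw [← ENNReal.ofReal_mul (by positivity)]
    congr 1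
    field_simp)
  rw [e1, Real.mul_rpow ht (by positivity), Real.rpow_natCast] at h1
  refine le_trans (le_of_eq ?_) h1
  congr 1
  ring

/-- **The inequality of the problem without loss above the exponent `1 + c / (n - 1)`, the usual weak
form with a loss at this exponent, the entropy inequality above the exponent `c` for all laws without
loss, and the entropy inequality above the exponent `c` for two-ends, broad laws with a small loss
are equivalent.** -/
theorem result (n : ℕ) (hn : 3 ≤ n) (c : ℝ) (hc : 1 ≤ c) :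
    List.TFAE [∀ q : ℝ, 1 + c / ((n : ℝ) - 1) < q → TubeBound n q,
      VolumeBound n c,
      ∀ b : ℝ, c < b → AllLaws (n - 1) b,
      ∀ b : ℝ, c < b → TwoEndsBroadLaws (n - 1) b] := by
  obtain ⟨d, rfl⟩ : ∃ d, n = d + 1 := ⟨n - 1, by omega⟩
  have hd : 2 ≤ d := by omega
  have hdR : (2 : ℝ) ≤ d := by exact_mod_cast hd
  have hd0 : (0 : ℝ) < d := by linarith
  have e1 : (((d + 1 : ℕ) : ℝ) - 1) = d := by push_cast; ring
  rw [e1, Nat.add_sub_cancel]
  tfae_have 1 → 2 := volumeBound_of hd hc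
  tfae_have 2 → 4 := by
    intro h b hb ε hε
    obtain ⟨C, hC, hX⟩ := allX_of_volumeBound hd hc h hb ε hε
    refine ⟨C, ?_⟩
    intro N Ω _ x v hN hv p hp0 hp1 S hS _
    have h1 := hX N Ω x v ((separated_iff hN v).1 hv) p ⟨hp0, hp1⟩
    have hS0 : 0 ≤ S := Pool.Agent.Y254HK.SepM_nonneg (p := p) ⟨hp0, hp1⟩ hS
    rw [entropyBound_iff]
    have h3 : 0 ≤ C * S := mul_nonneg hC hS0
    have h4 : C * (1 + S) = C + C * S := by ring
    linarith
  tfae_have 1 → 3 := by
    intro h b hb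
    have hT : ∀ b' : ℝ, c < b' → Pool.Agent.Zk22.En.ResI d b' := by
      intro b' hb'
      have hq : 1 + c / (d : ℝ) < 1 + b' / d := by gcongr
      have hb0 : 0 < b' := by linarith
      exact Pool.Agent.Zk22.En.resI_of_tubeQ (by omega) hb0
        ((tubeBound_iff d (by positivity)).1 (h _ hq))
    obtain ⟨C, -, hC⟩ := Pool.Agent.Zk22.En.orS_of_resI (d := d) (by omega)
      (b1 := (c + b) / 2) (b := b) (b2 := b + 1) (by linarith) (by linarith) (by linarith)
      (hT _ (by linarith)) (hT _ (by linarith))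
    refine ⟨C, ?_⟩
    intro N Ω _ x v hN hv p hp0 hp1
    rw [entropyBound_iff]
    exact hC N Ω x v ((separated_iff hN v).1 hv) p ⟨hp0, hp1⟩
  tfae_have 3 → 4 := by
    intro h b hb ε hε
    obtain ⟨C, hC⟩ := h b hb
    refine ⟨max C 0, ?_⟩
    intro N Ω _ x v hN hv p hp0 hp1 S hS _
    have h1 := hC N Ω x v hN hv p hp0 hp1
    have hS0 : 0 ≤ S := Pool.Agent.Y254HK.SepM_nonneg (p := p) ⟨hp0, hp1⟩ hS
    have hlog : 0 ≤ Real.log N := Real.log_nonneg (by exact_mod_cast hN)
    unfold EntropyBound at h1 ⊢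
    have h2 : C ≤ ε * Real.log N + max C 0 * (1 + S) := by
      have h3 : C ≤ max C 0 := le_max_left _ _
      have h4 : 0 ≤ max C 0 := le_max_right _ _
      nlinarith [mul_nonneg hε.le hlog, mul_nonneg h4 hS0]
    linarith
  tfae_have 4 → 1 := by
    intro h q hq
    obtain ⟨y, hy⟩ : ∃ y : ℝ, y = (q - 1) * d := ⟨_, rfl⟩
    have hqy : q = 1 + y / d := by rw [hy]; field_simp; ring
    have hcy : c < y := by
      rw [hqy] at hq
      have h1 : c / d < y / d := by linarith
      exact (div_lt_div_iff_of_pos_right hd0).1 h1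
    have hB : Pool.Agent.Zk22.AllXB d ((c + y) / 2) d := by
      intro ε hε
      obtain ⟨C, hC⟩ := h ((c + y) / 2) (by linarith) ε hε
      refine ⟨max C 0, le_max_right _ _, ?_⟩
      intro N Ω _ A D hfam p hp S hS hang
      have h1 := hC N Ω A D hfam.pos ((separated_iff hfam.pos D).2 hfam) p hp.nonneg hp.total S
        hS ((broad_iff A D p S).2 hang)
      rw [entropyBound_iff] at h1
      have hS0 : 0 ≤ S := Pool.Agent.Y254HK.SepM_nonneg hp hS
      have h3 : C * (1 + S) ≤ max C 0 * (1 + S) :=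
        mul_le_mul_of_nonneg_right (le_max_left _ _) (by linarith)
      linarith
    have hA := Pool.Agent.Zk22.t_extX (d := d) (b := (c + y) / 2) (G := d) (by linarith) le_rfl hB
    obtain ⟨C, hC, hE⟩ := Pool.Agent.Zk22.euF_of_allX (by omega) (by linarith)
      (show (c + y) / 2 < y by linarith) hA
    rw [← hqy] at hE
    have hq0 : 0 < q := by
      have : 0 < c / (d : ℝ) := by positivity
      linarith
    rw [tubeBound_iff d hq0]
    refine ⟨C, hC, ?_⟩
    intro δ hδ hδ1 ι _ a e he hsep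
    have h2 := hE δ hδ hδ1 ι a e he hsep
    have e2 : C * δ ^ (d : ℝ) * (Fintype.card ι : ℝ) ^ (q - 1 / (d : ℝ)) =
        C * (δ ^ d * (Fintype.card ι : ℝ) ^ (q - 1 / (d : ℝ))) := by
      rw [Real.rpow_natCast]; ring
    rw [e2]
    exact h2
  tfae_finish

end Pool.Agent.Results.MP_850839_an.UsualWeakForm
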